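import Pool.Agent.Helper38K2.Hall

set_option autoImplicit false

/-!
Union-closed families generated by `Z` (arbitrary sets) and `D` (pairwise disjoint nonempty sets).
-/

namespace Pool.Agent.Helper38K2

open Finset

variable {α : Type*} [DecidableEq α]

/-- `F` is the family of all unions of members of `Z ∪ D`, and `D` consists of pairwise disjoint
nonempty sets. -/
structure Gen (F Z D : Finset (Finset α)) : Prop where
  emp : ∅ ∈ F
  st : ∀ S ∈ F, ∀ g ∈ Z ∪ D, S ∪ g ∈ F
  gen : ∀ S ∈ F, ∀ x ∈ S, ∃ g ∈ Z ∪ D, x ∈ g ∧ g ⊆ S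
  disj : ∀ d ∈ D, ∀ d' ∈ D, d ≠ d' → Disjoint d d'
  ne : ∀ d ∈ D, d.Nonempty

/-- `z` is partial at `d`: it meets `d` and does not contain it. -/
def Par (z d : Finset α) : Prop := (∃ y ∈ z, y ∈ d) ∧ ¬ d ⊆ z

instance (z d : Finset α) : Decidable (Par z d) := by unfold Par; infer_instance

/-- The exceptional members at the block `d`. -/
def EE (F Z : Finset (Finset α)) (d : Finset α) : Finset (Finset α) :=
  F.filter (fun A => ¬ d ⊆ A ∧ ∃ z ∈ Z, Par z d ∧ ¬ z ⊆ A ∧ z ⊆ A ∪ d)

variable {F Z D : Finset (Finset α)}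

theorem Gen.union_mem (h : Gen F Z D) {S : Finset α} (hS : S ∈ F) {K : Finset (Finset α)}
    (hK : K ⊆ Z ∪ D) : S ∪ K.biUnion id ∈ F := by
  induction K using Finset.induction_on with
  | empty => simpa using hS
  | insert g K hg ih =>
    rw [Finset.biUnion_insert]
    have h1 := ih ((Finset.subset_insert _ _).trans hK)
    have h2 := h.st _ h1 g (hK (Finset.mem_insert_self _ _))
    have h3 : S ∪ (id g ∪ K.biUnion id) = S ∪ K.biUnion id ∪ g := by
      ext x
      simp only [Finset.mem_union, id]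
      tauto
    rw [h3]
    exact h2

theorem Gen.sub_of_sub (h : Gen F Z D) {d : Finset α} (hd : d ∈ D) {x : α} (hx : x ∈ d)
    {A A' : Finset α} (hA : A ∈ F) (hxA : x ∉ A) (hA' : A' ∈ F) (hxA' : x ∉ A')
    (hE : A' ∉ EE F Z d) (hsub : A ⊆ A' ∪ d) : A ⊆ A' := by
  intro y hy
  obtain ⟨g, hg, hyg, hgA⟩ := h.gen A hA y hy
  by_contra hyA'
  have hgsub : g ⊆ A' ∪ d := hgA.trans hsub
  have hgA' : ¬ g ⊆ A' := fun hh => hyA' (hh hyg)
  have hyd : y ∈ d := by
    rcases Finset.mem_union.mp (hgsub hyg) with hh | hh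
    · exact absurd hh hyA'
    · exact hh
  rcases Finset.mem_union.mp hg with hgZ | hgD
  · apply hE
    simp only [EE, Finset.mem_filter]
    refine ⟨hA', fun hh => hxA' (hh hx), g, hgZ, ⟨⟨y, hyg, hyd⟩, fun hh => hxA (hgA (hh hx))⟩,
      hgA', hgsub⟩
  · by_cases hgd : g = d
    · subst hgd
      exact hxA (hgA hx)
    · exact Finset.disjoint_left.mp (h.disj g hgD d hd hgd) hyg hyd

theorem Gen.card_notMem_le (h : Gen F Z D) {d : Finset α} (hd : d ∈ D) {x : α} (hx : x ∈ d) :
    (F.filter (fun A => x ∉ A ∧ A ∉ EE F Z d)).card ≤ (F.filter (fun A => d ⊆ A)).card := by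
  apply Finset.card_le_card_of_injOn (fun A => A ∪ d)
  · intro A hA
    simp only [Finset.coe_filter, Set.mem_ofPred_eq] at hA ⊢
    exact ⟨h.st A hA.1 d (Finset.mem_union_right _ hd), Finset.subset_union_right⟩
  · intro A hA A' hA' hEq
    simp only [Finset.coe_filter, Set.mem_ofPred_eq] at hA hA'
    simp only at hEq
    apply Finset.Subset.antisymm
    · exact h.sub_of_sub hd hx hA.1 hA.2.1 hA'.1 hA'.2.1 hA'.2.2
        (hEq ▸ Finset.subset_union_left)
    · exact h.sub_of_sub hd hx hA'.1 hA'.2.1 hA.1 hA.2.1 hA.2.2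
        (hEq ▸ Finset.subset_union_left)

/-- The main inequality at a block `d` and an element `x ∈ d` that lies in less than half of the
members. -/
theorem Gen.card_part_lt (h : Gen F Z D) {d : Finset α} (hd : d ∈ D) {x : α} (hx : x ∈ d)
    (hbad : 2 * (F.filter (fun A => x ∈ A)).card < F.card) :
    (F.filter (fun A => x ∈ A ∧ ¬ d ⊆ A)).card < (EE F Z d).card := by
  have h1 := h.card_notMem_le hd hx
  have h2 : (F.filter (fun A => x ∈ A)).card + (F.filter (fun A => x ∉ A)).card = F.card :=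
    Finset.card_filter_add_card_filter_not _
  have h3 : (F.filter (fun A => x ∉ A)).card ≤
      (F.filter (fun A => x ∉ A ∧ A ∉ EE F Z d)).card + (EE F Z d).card := by
    rw [← Finset.card_union_add_card_inter]
    refine le_trans (Finset.card_le_card ?_) (Nat.le_add_right _ _)
    intro A hA
    simp only [Finset.mem_filter, Finset.mem_union] at hA ⊢
    by_cases hE : A ∈ EE F Z d
    · exact Or.inr hE
    · exact Or.inl ⟨hA.1, hA.2, hE⟩
  have h4 : (F.filter (fun A => d ⊆ A)).card + (F.filter (fun A => x ∈ A ∧ ¬ d ⊆ A)).card ≤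
      (F.filter (fun A => x ∈ A)).card := by
    rw [← Finset.card_union_of_disjoint]
    · apply Finset.card_le_card
      intro A hA
      simp only [Finset.mem_filter, Finset.mem_union] at hA ⊢
      rcases hA with hA | hA
      · exact ⟨hA.1, hA.2 hx⟩
      · exact ⟨hA.1, hA.2.1⟩
    · rw [Finset.disjoint_left]
      intro A hA hA'
      simp only [Finset.mem_filter] at hA hA'
      exact hA'.2.2 hA.2
  omega

theorem Gen.exists_par (h : Gen F Z D) {d : Finset α} (hd : d ∈ D)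
    (hbad : ∀ x ∈ d, 2 * (F.filter (fun A => x ∈ A)).card < F.card) :
    ∃ z ∈ Z, Par z d := by
  obtain ⟨x, hx⟩ := h.ne d hd
  have h1 := h.card_part_lt hd hx (hbad x hx)
  have h2 : 0 < (EE F Z d).card := by omega
  obtain ⟨A, hA⟩ := Finset.card_pos.mp h2
  simp only [EE, Finset.mem_filter] at hA
  obtain ⟨_, _, z, hz, hp, _⟩ := hA
  exact ⟨z, hz, hp⟩

/-- Lower bound for the exceptional members. -/
theorem Gen.gamma_lt (h : Gen F Z D) {d : Finset α} (hd : d ∈ D)
    (hbad : ∀ x ∈ d, 2 * (F.filter (fun A => x ∈ A)).card < F.card) {z : Finset α}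
    (hp : Par z d) :
    (F.filter (fun A => z ⊆ A ∧ ¬ d ⊆ A)).card ≤ (EE F Z d).card := by
  obtain ⟨⟨x, hxz, hxd⟩, _⟩ := hp
  refine le_trans (Finset.card_le_card ?_) (h.card_part_lt hd hxd (hbad x hxd)).le
  intro A hA
  simp only [Finset.mem_filter] at hA ⊢
  exact ⟨hA.1, hA.2.1 hxz, hA.2.2⟩

/-- Every member is exceptional for at most `|Z|` blocks. -/
theorem Gen.card_EE_le (h : Gen F Z D) (A : Finset α) :
    (D.filter (fun d => A ∈ EE F Z d)).card ≤ Z.card := by
  apply Finset.card_le_card_of_forall_subsingleton (fun d z => ¬ z ⊆ A ∧ z ⊆ A ∪ d)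
  · intro d hd
    simp only [Finset.mem_filter, EE] at hd
    obtain ⟨hdD, hAF, hdA, z, hz, hp, hzA, hzAd⟩ := hd
    exact ⟨z, hz, hzA, hzAd⟩
  · intro z hz d hd d' hd'
    simp only [Set.mem_ofPred_eq, Finset.mem_filter] at hd hd'
    obtain ⟨⟨hdD, _⟩, hzA, hzd⟩ := hd
    obtain ⟨⟨hdD', _⟩, _, hzd'⟩ := hd'
    by_contra hne
    obtain ⟨y, hyz, hyA⟩ := Finset.not_subset.mp hzA
    have h1 : y ∈ d := by
      rcases Finset.mem_union.mp (hzd hyz) with hh | hh
      · exact absurd hh hyA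
      · exact hh
    have h2 : y ∈ d' := by
      rcases Finset.mem_union.mp (hzd' hyz) with hh | hh
      · exact absurd hh hyA
      · exact hh
    exact Finset.disjoint_left.mp (h.disj d hdD d' hdD' hne) h1 h2

/-- A member is determined by the generators it contains. -/
theorem Gen.eq_of_filter_eq (h : Gen F Z D) {A A' : Finset α} (hA : A ∈ F) (hA' : A' ∈ F)
    (hZ : Z.filter (· ⊆ A) = Z.filter (· ⊆ A')) (hD : ∀ d ∈ D, d ⊆ A ↔ d ⊆ A') : A = A' := by
  have key : ∀ A ∈ F, ∀ A' ∈ F, Z.filter (· ⊆ A) = Z.filter (· ⊆ A') →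
      (∀ d ∈ D, d ⊆ A ↔ d ⊆ A') → A ⊆ A' := by
    intro A hA A' hA' hZ hD y hy
    obtain ⟨g, hg, hyg, hgA⟩ := h.gen A hA y hy
    rcases Finset.mem_union.mp hg with hgZ | hgD
    · have : g ∈ Z.filter (· ⊆ A') := hZ ▸ Finset.mem_filter.mpr ⟨hgZ, hgA⟩
      exact (Finset.mem_filter.mp this).2 hyg
    · exact (hD g hgD).mp hgA hyg
  exact Finset.Subset.antisymm (key A hA A' hA' hZ hD)
    (key A' hA' A hA hZ.symm (fun d hd => (hD d hd).symm))

end Pool.Agent.Helper38K2
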