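import Pool.Agent.Helper38K2.Base

set_option autoImplicit false

/-!
Counting lemmas for the structure theorem.
-/

namespace Pool.Agent.Helper38K2

open Finset

variable {α : Type*} [DecidableEq α] {F Z D : Finset (Finset α)}

/-- The blocks not contained in `z`. -/
def Dn (D : Finset (Finset α)) (z : Finset α) : Finset (Finset α) := D.filter (fun d => ¬ d ⊆ z)

theorem Gen.sub_union_iff (h : Gen F Z D) {z : Finset α} {K : Finset (Finset α)} (hK : K ⊆ D)
    {d : Finset α} (hd : d ∈ D) (hdz : ¬ d ⊆ z) : d ⊆ z ∪ K.biUnion id ↔ d ∈ K := by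
  constructor
  · intro hsub
    by_contra hdK
    apply hdz
    intro y hy
    rcases Finset.mem_union.mp (hsub hy) with hh | hh
    · exact hh
    · obtain ⟨d', hd', hyd'⟩ := Finset.mem_biUnion.mp hh
      have hne : d ≠ d' := fun e => hdK (e ▸ hd')
      exact absurd hyd' (Finset.disjoint_left.mp (h.disj d hd d' (hK hd') hne) hy)
  · intro hdK
    refine Finset.Subset.trans ?_ Finset.subset_union_right
    exact Finset.subset_biUnion_of_mem id hdK

theorem Gen.lower (h : Gen F Z D) {z d : Finset α} (hz : z ∈ Z) (hd : d ∈ D) (hp : Par z d) :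
    2 ^ ((Dn D z).card - 1) ≤ (F.filter (fun A => z ⊆ A ∧ ¬ d ⊆ A)).card := by
  have hdm : d ∈ Dn D z := Finset.mem_filter.mpr ⟨hd, hp.2⟩
  rw [← Finset.card_erase_of_mem hdm, ← Finset.card_powerset]
  have hK : ∀ K ∈ ((Dn D z).erase d).powerset, K ⊆ D := by
    intro K hK
    rw [Finset.mem_powerset] at hK
    exact hK.trans ((Finset.erase_subset _ _).trans (Finset.filter_subset _ _))
  apply Finset.card_le_card_of_injOn (fun K => z ∪ K.biUnion id)
  · intro K hKm
    rw [Finset.mem_coe] at hKm
    simp only [Finset.coe_filter, Set.mem_ofPred_eq]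
    refine ⟨?_, Finset.subset_union_left, ?_⟩
    · apply h.union_mem
      · have := h.st ∅ h.emp z (Finset.mem_union_left _ hz)
        simpa using this
      · exact (hK K hKm).trans Finset.subset_union_right
    · rw [h.sub_union_iff (hK K hKm) hd hp.2]
      intro hdK
      exact absurd (Finset.mem_powerset.mp hKm hdK) (by simp)
  · intro K hKm K' hKm' hEq
    rw [Finset.mem_coe] at hKm hKm'
    simp only at hEq
    have aux : ∀ K ∈ ((Dn D z).erase d).powerset, ∀ K' ∈ ((Dn D z).erase d).powerset,
        z ∪ K.biUnion id = z ∪ K'.biUnion id → K ⊆ K' := by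
      intro K hKm K' hKm' hEq e he
      have he' := Finset.mem_of_mem_erase (Finset.mem_powerset.mp hKm he)
      simp only [Dn, Finset.mem_filter] at he'
      rw [← h.sub_union_iff (hK K' hKm') he'.1 he'.2, ← hEq,
        h.sub_union_iff (hK K hKm) he'.1 he'.2]
      exact he
    exact Finset.Subset.antisymm (aux K hKm K' hKm' hEq) (aux K' hKm' K hKm hEq.symm)

/-- Members that contain `z` and miss at most `s` blocks of a set `m` of blocks. -/
theorem Gen.upper1 (h : Gen F Z D) {z : Finset α} {m : Finset (Finset α)} (hm : m ⊆ Dn D z)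
    (s : ℕ) :
    (F.filter (fun A => z ⊆ A ∧ (m.filter (fun d => ¬ d ⊆ A)).card ≤ s)).card ≤
      2 ^ Z.card * (2 ^ ((Dn D z).card - m.card) *
        (m.powerset.filter (fun J => J.card ≤ s)).card) := by
  rw [← Finset.card_sdiff_of_subset hm, ← Finset.card_powerset, ← Finset.card_powerset,
    ← Finset.card_product, ← Finset.card_product]
  apply Finset.card_le_card_of_injOn (fun A => (Z.filter (· ⊆ A),
    ((Dn D z \ m).filter (· ⊆ A), m.filter (fun d => ¬ d ⊆ A))))
  · intro A hA
    simp only [Finset.coe_filter, Set.mem_ofPred_eq] at hA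
    simp only [Finset.coe_product, Set.mem_prod, Finset.mem_coe, Finset.mem_powerset,
      Finset.mem_filter]
    exact ⟨Finset.filter_subset _ _, Finset.filter_subset _ _, Finset.filter_subset _ _, hA.2.2⟩
  · intro A hA A' hA' hEq
    simp only [Finset.coe_filter, Set.mem_ofPred_eq] at hA hA'
    simp only [Prod.mk.injEq] at hEq
    apply h.eq_of_filter_eq hA.1 hA'.1 hEq.1
    intro d hd
    by_cases hdz : d ⊆ z
    · exact ⟨fun _ => hdz.trans hA'.2.1, fun _ => hdz.trans hA.2.1⟩
    · have hdn : d ∈ Dn D z := Finset.mem_filter.mpr ⟨hd, hdz⟩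
      by_cases hdm : d ∈ m
      · have h3 : d ∈ m.filter (fun d => ¬ d ⊆ A) ↔ d ∈ m.filter (fun d => ¬ d ⊆ A') := by
          rw [hEq.2.2]
        simp only [Finset.mem_filter, hdm, true_and] at h3
        exact not_iff_not.mp h3
      · have h3 : d ∈ (Dn D z \ m).filter (· ⊆ A) ↔ d ∈ (Dn D z \ m).filter (· ⊆ A') := by
          rw [hEq.2.1]
        simpa only [Finset.mem_filter, Finset.mem_sdiff, hdn, hdm, not_false_eq_true, true_and,
          and_self] using h3

/-- Members that do not contain `d` but contain all the other blocks of `m` and all blocks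
contained in `z`. -/
theorem Gen.upper2 (h : Gen F Z D) {z d : Finset α} {m : Finset (Finset α)} (hm : m ⊆ Dn D z) :
    (F.filter (fun A => ¬ d ⊆ A ∧ (∀ e ∈ D, e ⊆ z → e ⊆ A) ∧
      (∀ e ∈ m, e ≠ d → e ⊆ A))).card ≤
      2 ^ Z.card * 2 ^ ((Dn D z).card - m.card) := by
  rw [← Finset.card_sdiff_of_subset hm, ← Finset.card_powerset, ← Finset.card_powerset,
    ← Finset.card_product]
  apply Finset.card_le_card_of_injOn (fun A => (Z.filter (· ⊆ A), (Dn D z \ m).filter (· ⊆ A)))
  · intro A hA
    simp only [Finset.coe_product, Set.mem_prod, Finset.mem_coe, Finset.mem_powerset]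
    exact ⟨Finset.filter_subset _ _, Finset.filter_subset _ _⟩
  · intro A hA A' hA' hEq
    simp only [Finset.coe_filter, Set.mem_ofPred_eq] at hA hA'
    simp only [Prod.mk.injEq] at hEq
    apply h.eq_of_filter_eq hA.1 hA'.1 hEq.1
    intro e he
    by_cases hed : e = d
    · subst hed
      exact ⟨fun hh => absurd hh hA.2.1, fun hh => absurd hh hA'.2.1⟩
    · by_cases hez : e ⊆ z
      · exact ⟨fun _ => hA'.2.2.1 e he hez, fun _ => hA.2.2.1 e he hez⟩
      · have hdn : e ∈ Dn D z := Finset.mem_filter.mpr ⟨he, hez⟩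
        by_cases hem : e ∈ m
        · exact ⟨fun _ => hA'.2.2.2 e hem hed, fun _ => hA.2.2.2 e hem hed⟩
        · have h3 : e ∈ (Dn D z \ m).filter (· ⊆ A) ↔ e ∈ (Dn D z \ m).filter (· ⊆ A') := by
            rw [hEq.2]
          simpa only [Finset.mem_filter, Finset.mem_sdiff, hdn, hem, not_false_eq_true, true_and,
            and_self] using h3

/-- The number of small subsets of a set with `6 s` elements. -/
theorem card_small {β : Type*} [DecidableEq β] (m : Finset β) (s : ℕ) (hm : m.card = 6 * s) :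
    (m.powerset.filter (fun J => J.card ≤ s)).card ≤ 16 ^ s := by
  have h1 : ∑ J ∈ m.powerset, 1 ^ J.card * 5 ^ (m.card - J.card) = (1 + 5) ^ m.card :=
    Finset.sum_pow_mul_eq_add_pow 1 5 m
  have h2 : (m.powerset.filter (fun J => J.card ≤ s)).card * 5 ^ (5 * s) ≤
      ∑ J ∈ m.powerset, 1 ^ J.card * 5 ^ (m.card - J.card) := by
    calc (m.powerset.filter (fun J => J.card ≤ s)).card * 5 ^ (5 * s)
        = ∑ J ∈ m.powerset.filter (fun J => J.card ≤ s), 5 ^ (5 * s) := by
          rw [Finset.sum_const, smul_eq_mul]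
      _ ≤ ∑ J ∈ m.powerset.filter (fun J => J.card ≤ s), 1 ^ J.card * 5 ^ (m.card - J.card) := by
          apply Finset.sum_le_sum
          intro J hJ
          rw [one_pow, one_mul]
          apply Nat.pow_le_pow_right (by norm_num)
          have := (Finset.mem_filter.mp hJ).2
          omega
      _ ≤ _ := Finset.sum_le_sum_of_subset (Finset.filter_subset _ _)
  rw [h1, hm] at h2
  have h3 : (1 + 5) ^ (6 * s) ≤ 16 ^ s * 5 ^ (5 * s) := by
    rw [pow_mul, pow_mul, ← mul_pow]
    exact Nat.pow_le_pow_left (by norm_num) s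
  exact Nat.le_of_mul_le_mul_right (h2.trans h3) (by positivity)

end Pool.Agent.Helper38K2
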