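import Mathlib

set_option autoImplicit false

/-!
The number of disjoint intersecting pairs of generators of a large union-closed family without
an element in half of the members.
-/

namespace Pool.Agent.Helper38K2

open Finset

section Matching

variable {β : Type*} [DecidableEq β]

/-- A set of pairwise disjoint pairs of distinct elements of `G`. -/
structure Mat (G : Finset β) (P : Finset (β × β)) : Prop where
  mem1 : ∀ p ∈ P, p.1 ∈ G
  mem2 : ∀ p ∈ P, p.2 ∈ G
  ne : ∀ p ∈ P, p.1 ≠ p.2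
  disj : ∀ p ∈ P, ∀ q ∈ P, p ≠ q → p.1 ≠ q.1 ∧ p.1 ≠ q.2 ∧ p.2 ≠ q.1 ∧ p.2 ≠ q.2

/-- The number of pairs with no element in `S`. -/
def cnt (P : Finset (β × β)) (S : Finset β) : ℕ := (P.filter (fun p => p.1 ∉ S ∧ p.2 ∉ S)).card

theorem Mat.two_mul_le {G : Finset β} {P : Finset (β × β)} (h : Mat G P) :
    2 * P.card ≤ G.card := by
  induction P using Finset.induction_on generalizing G with
  | empty => simp
  | insert p P hp ih =>
    have h1 : Mat ((G.erase p.1).erase p.2) P := by
      have hd : ∀ q ∈ P, p.1 ≠ q.1 ∧ p.1 ≠ q.2 ∧ p.2 ≠ q.1 ∧ p.2 ≠ q.2 := fun q hq =>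
        h.disj p (Finset.mem_insert_self _ _) q (Finset.mem_insert_of_mem hq)
          (fun e => hp (e ▸ hq))
      refine ⟨fun q hq => ?_, fun q hq => ?_, fun q hq => h.ne q (Finset.mem_insert_of_mem hq),
        fun q hq q' hq' => h.disj q (Finset.mem_insert_of_mem hq) q'
          (Finset.mem_insert_of_mem hq')⟩
      · have := hd q hq
        exact Finset.mem_erase.mpr ⟨this.2.2.1.symm, Finset.mem_erase.mpr ⟨this.1.symm,
          h.mem1 q (Finset.mem_insert_of_mem hq)⟩⟩
      · have := hd q hq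
        exact Finset.mem_erase.mpr ⟨this.2.2.2.symm, Finset.mem_erase.mpr ⟨this.2.1.symm,
          h.mem2 q (Finset.mem_insert_of_mem hq)⟩⟩
    have h2 := ih h1
    have ha : p.1 ∈ G := h.mem1 p (Finset.mem_insert_self _ _)
    have hb : p.2 ∈ G.erase p.1 := Finset.mem_erase.mpr
      ⟨(h.ne p (Finset.mem_insert_self _ _)).symm, h.mem2 p (Finset.mem_insert_self _ _)⟩
    have h3 := Finset.card_erase_add_one ha
    have h4 := Finset.card_erase_add_one hb
    rw [Finset.card_insert_of_notMem hp]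
    omega

/-- The generating function of `cnt`. -/
theorem Mat.sum_eq {G : Finset β} {P : Finset (β × β)} (h : Mat G P) :
    4 ^ P.card * ∑ S ∈ G.powerset, 3 ^ cnt P S = 2 ^ G.card * 6 ^ P.card := by
  induction P using Finset.induction_on generalizing G with
  | empty =>
    simp [cnt]
  | insert p P hp ih =>
    have hd : ∀ q ∈ P, p.1 ≠ q.1 ∧ p.1 ≠ q.2 ∧ p.2 ≠ q.1 ∧ p.2 ≠ q.2 := fun q hq =>
      h.disj p (Finset.mem_insert_self _ _) q (Finset.mem_insert_of_mem hq)
        (fun e => hp (e ▸ hq))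
    have h1 : Mat ((G.erase p.1).erase p.2) P := by
      refine ⟨fun q hq => ?_, fun q hq => ?_, fun q hq => h.ne q (Finset.mem_insert_of_mem hq),
        fun q hq q' hq' => h.disj q (Finset.mem_insert_of_mem hq) q'
          (Finset.mem_insert_of_mem hq')⟩
      · have := hd q hq
        exact Finset.mem_erase.mpr ⟨this.2.2.1.symm, Finset.mem_erase.mpr ⟨this.1.symm,
          h.mem1 q (Finset.mem_insert_of_mem hq)⟩⟩
      · have := hd q hq
        exact Finset.mem_erase.mpr ⟨this.2.2.2.symm, Finset.mem_erase.mpr ⟨this.2.1.symm,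
          h.mem2 q (Finset.mem_insert_of_mem hq)⟩⟩
    have hne := h.ne p (Finset.mem_insert_self _ _)
    have ha : p.1 ∈ G := h.mem1 p (Finset.mem_insert_self _ _)
    have hb : p.2 ∈ G.erase p.1 := Finset.mem_erase.mpr
      ⟨hne.symm, h.mem2 p (Finset.mem_insert_self _ _)⟩
    have h2 := ih h1
    set G' := (G.erase p.1).erase p.2 with hG'
    have hb' : p.2 ∉ G' := Finset.notMem_erase _ _
    have hcard : G.card = G'.card + 2 := by
      have h3 := Finset.card_erase_add_one ha
      have h4 := Finset.card_erase_add_one hb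
      rw [hG']
      omega
    have hGeq : G = insert p.1 (insert p.2 G') := by
      rw [hG', Finset.insert_erase hb, Finset.insert_erase ha]
    have ha' : p.1 ∉ insert p.2 G' := by
      rw [hG', Finset.insert_erase hb]
      exact Finset.notMem_erase _ _
    have haG' : p.1 ∉ G' := fun hh => ha' (Finset.mem_insert_of_mem hh)
    -- values of cnt
    have c0 : ∀ S ∈ G'.powerset, cnt (insert p P) S = cnt P S + 1 := by
      intro S hS
      have hS' := Finset.mem_powerset.mp hS
      have e1 : p.1 ∉ S := fun hh => haG' (hS' hh)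
      have e2 : p.2 ∉ S := fun hh => hb' (hS' hh)
      unfold cnt
      rw [Finset.filter_insert, if_pos ⟨e1, e2⟩, Finset.card_insert_of_notMem]
      intro hh
      exact hp (Finset.mem_filter.mp hh).1
    have cgen : ∀ S ∈ G'.powerset, ∀ T : Finset β, (p.1 ∈ T ∨ p.2 ∈ T) →
        (∀ q ∈ P, (q.1 ∈ T ↔ q.1 ∈ S) ∧ (q.2 ∈ T ↔ q.2 ∈ S)) →
        cnt (insert p P) T = cnt P S := by
      intro S _ T hT hq
      unfold cnt
      rw [Finset.filter_insert, if_neg (by tauto)]
      congr 1
      apply Finset.filter_congr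
      intro q hqP
      rw [(hq q hqP).1, (hq q hqP).2]
    have c1 : ∀ S ∈ G'.powerset, cnt (insert p P) (insert p.1 S) = cnt P S := by
      intro S hS
      apply cgen S hS
      · exact Or.inl (Finset.mem_insert_self _ _)
      · intro q hq
        have := hd q hq
        simp only [Finset.mem_insert]
        constructor
        · exact ⟨fun hh => hh.resolve_left this.1.symm, Or.inr⟩
        · exact ⟨fun hh => hh.resolve_left this.2.1.symm, Or.inr⟩
    have c2 : ∀ S ∈ G'.powerset, cnt (insert p P) (insert p.2 S) = cnt P S := by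
      intro S hS
      apply cgen S hS
      · exact Or.inr (Finset.mem_insert_self _ _)
      · intro q hq
        have := hd q hq
        simp only [Finset.mem_insert]
        constructor
        · exact ⟨fun hh => hh.resolve_left this.2.2.1.symm, Or.inr⟩
        · exact ⟨fun hh => hh.resolve_left this.2.2.2.symm, Or.inr⟩
    have c3 : ∀ S ∈ G'.powerset, cnt (insert p P) (insert p.1 (insert p.2 S)) = cnt P S := by
      intro S hS
      apply cgen S hS
      · exact Or.inl (Finset.mem_insert_self _ _)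
      · intro q hq
        have := hd q hq
        simp only [Finset.mem_insert]
        constructor
        · exact ⟨fun hh => (hh.resolve_left this.1.symm).resolve_left this.2.2.1.symm,
            fun hh => Or.inr (Or.inr hh)⟩
        · exact ⟨fun hh => (hh.resolve_left this.2.1.symm).resolve_left this.2.2.2.symm,
            fun hh => Or.inr (Or.inr hh)⟩
    have s0 : ∑ S ∈ G'.powerset, 3 ^ cnt (insert p P) S =
        3 * ∑ S ∈ G'.powerset, 3 ^ cnt P S := by
      rw [Finset.mul_sum]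
      exact Finset.sum_congr rfl (fun S hS => by rw [c0 S hS, pow_succ'])
    have s1 : ∑ S ∈ G'.powerset, 3 ^ cnt (insert p P) (insert p.1 S) =
        ∑ S ∈ G'.powerset, 3 ^ cnt P S :=
      Finset.sum_congr rfl (fun S hS => by rw [c1 S hS])
    have s2 : ∑ S ∈ G'.powerset, 3 ^ cnt (insert p P) (insert p.2 S) =
        ∑ S ∈ G'.powerset, 3 ^ cnt P S :=
      Finset.sum_congr rfl (fun S hS => by rw [c2 S hS])
    have s3 : ∑ S ∈ G'.powerset, 3 ^ cnt (insert p P) (insert p.1 (insert p.2 S)) =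
        ∑ S ∈ G'.powerset, 3 ^ cnt P S :=
      Finset.sum_congr rfl (fun S hS => by rw [c3 S hS])
    have hsum : ∑ S ∈ G.powerset, 3 ^ cnt (insert p P) S =
        6 * ∑ S ∈ G'.powerset, 3 ^ cnt P S := by
      rw [hGeq, Finset.sum_powerset_insert ha', Finset.sum_powerset_insert hb',
        Finset.sum_powerset_insert hb', s0, s1, s2, s3]
      ring
    rw [Finset.card_insert_of_notMem hp, hsum, hcard]
    calc 4 ^ (P.card + 1) * (6 * ∑ S ∈ G'.powerset, 3 ^ cnt P S)
        = 24 * (4 ^ P.card * ∑ S ∈ G'.powerset, 3 ^ cnt P S) := by ring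
      _ = 24 * (2 ^ G'.card * 6 ^ P.card) := by rw [h2]
      _ = 2 ^ (G'.card + 2) * 6 ^ (P.card + 1) := by ring

/-- A maximal set of disjoint related pairs. -/
theorem exists_maximal (G : Finset β) (r : β → β → Prop) :
    ∃ P, Mat G P ∧ (∀ p ∈ P, r p.1 p.2) ∧
      ∀ a ∈ G, ∀ b ∈ G, a ≠ b → (∀ p ∈ P, a ≠ p.1 ∧ a ≠ p.2 ∧ b ≠ p.1 ∧ b ≠ p.2) → ¬ r a b := by
  classical
  obtain ⟨P, hP, hmax⟩ := Finset.exists_max_image
    ((G ×ˢ G).powerset.filter (fun P => Mat G P ∧ ∀ p ∈ P, r p.1 p.2)) Finset.card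
    ⟨∅, by
      simp only [Finset.mem_filter, Finset.mem_powerset, Finset.empty_subset, true_and]
      exact ⟨⟨by simp, by simp, by simp, by simp⟩, by simp⟩⟩
  simp only [Finset.mem_filter, Finset.mem_powerset] at hP hmax
  refine ⟨P, hP.2.1, hP.2.2, ?_⟩
  intro a ha b hb hab hno hr
  have hm := hP.2.1
  have hnot : (a, b) ∉ P := fun hh => (hno _ hh).1 rfl
  have := hmax (insert (a, b) P) ⟨?_, ⟨?_, ?_, ?_, ?_⟩, ?_⟩
  · rw [Finset.card_insert_of_notMem hnot] at this
    omega
  · intro p hp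
    rcases Finset.mem_insert.mp hp with rfl | hp
    · exact Finset.mem_product.mpr ⟨ha, hb⟩
    · exact hP.1 hp
  · intro p hp
    rcases Finset.mem_insert.mp hp with rfl | hp
    · exact ha
    · exact hm.mem1 p hp
  · intro p hp
    rcases Finset.mem_insert.mp hp with rfl | hp
    · exact hb
    · exact hm.mem2 p hp
  · intro p hp
    rcases Finset.mem_insert.mp hp with rfl | hp
    · exact hab
    · exact hm.ne p hp
  · intro p hp q hq hpq
    rcases Finset.mem_insert.mp hp with rfl | hp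
    · rcases Finset.mem_insert.mp hq with rfl | hq
      · exact absurd rfl hpq
      · exact hno q hq |> fun h => ⟨h.1, h.2.1, h.2.2.1, h.2.2.2⟩
    · rcases Finset.mem_insert.mp hq with rfl | hq
      · exact hno p hp |> fun h => ⟨h.1.symm, h.2.2.1.symm, h.2.1.symm, h.2.2.2.symm⟩
      · exact hm.disj p hp q hq hpq
  · intro p hp
    rcases Finset.mem_insert.mp hp with rfl | hp
    · exact hr
    · exact hP.2.2 p hp

end Matching

section Entropy

variable {α : Type*} [DecidableEq α]

/-- The tangent line inequality for `3 ^ x`. -/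
theorem sum_three_pow {ι : Type*} (s : Finset ι) (c : ι → ℕ) (n : ℕ)
    (h : n * s.card ≤ 2 * ∑ i ∈ s, c i) :
    3 ^ n * (s.card : ℝ) ^ 2 ≤ (∑ i ∈ s, (3 : ℝ) ^ c i) ^ 2 := by
  set a : ℝ := Real.exp (Real.log 3 * ((n : ℝ) / 2)) with ha
  have hapos : 0 < a := Real.exp_pos _
  have ha2 : a ^ 2 = 3 ^ n := by
    rw [ha, ← Real.exp_nat_mul]
    have : ((2 : ℕ) : ℝ) * (Real.log 3 * ((n : ℝ) / 2)) = (n : ℝ) * Real.log 3 := by
      push_cast
      ring
    rw [this, Real.exp_nat_mul, Real.exp_log (by norm_num)]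
  have hlog : 0 < Real.log 3 := Real.log_pos (by norm_num)
  have hpt : ∀ i ∈ s, a * (1 + ((c i : ℝ) - n / 2) * Real.log 3) ≤ (3 : ℝ) ^ c i := by
    intro i _
    have h1 : (3 : ℝ) ^ c i = a * Real.exp (((c i : ℝ) - n / 2) * Real.log 3) := by
      rw [ha, ← Real.exp_add]
      have : Real.log 3 * ((n : ℝ) / 2) + ((c i : ℝ) - n / 2) * Real.log 3 =
          (c i : ℝ) * Real.log 3 := by ring
      rw [this, Real.exp_nat_mul, Real.exp_log (by norm_num)]
    rw [h1]
    apply mul_le_mul_of_nonneg_left _ hapos.le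
    have := Real.add_one_le_exp (((c i : ℝ) - n / 2) * Real.log 3)
    linarith
  have hsum : a * s.card ≤ ∑ i ∈ s, (3 : ℝ) ^ c i := by
    calc a * s.card ≤ a * (s.card + ((∑ i ∈ s, (c i : ℝ)) - n / 2 * s.card) * Real.log 3) := by
          apply mul_le_mul_of_nonneg_left _ hapos.le
          have h2 : (n : ℝ) * s.card ≤ 2 * ∑ i ∈ s, (c i : ℝ) := by exact_mod_cast h
          have h3 : 0 ≤ ((∑ i ∈ s, (c i : ℝ)) - n / 2 * s.card) := by linarith
          have := mul_nonneg h3 hlog.le
          linarith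
      _ = ∑ i ∈ s, a * (1 + ((c i : ℝ) - n / 2) * Real.log 3) := by
          rw [← Finset.mul_sum]
          congr 1
          rw [Finset.sum_add_distrib, ← Finset.sum_mul, Finset.sum_sub_distrib]
          simp only [Finset.sum_const, nsmul_eq_mul, mul_one]
          ring
      _ ≤ _ := Finset.sum_le_sum hpt
  calc 3 ^ n * (s.card : ℝ) ^ 2 = (a * s.card) ^ 2 := by rw [mul_pow, ha2]
    _ ≤ _ := by
      apply pow_le_pow_left₀ _ hsum
      positivity

/-- If no element lies in more than half of the members of `F`, disjoint pairs of intersecting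
generators make `F` small. -/
theorem pairs_bound (F G : Finset (Finset α))
    (hgen : ∀ S ∈ F, ∀ x ∈ S, ∃ g ∈ G, x ∈ g ∧ g ⊆ S)
    (hbad : ∀ x, 2 * (F.filter (fun A => x ∈ A)).card ≤ F.card)
    {P : Finset (Finset α × Finset α)} (hP : Mat G P) (hr : ∀ p ∈ P, ¬ Disjoint p.1 p.2) :
    F.card ^ 2 * 4 ^ P.card ≤ 4 ^ G.card * 3 ^ P.card := by
  -- encode members by the generators they contain
  set e : Finset α → Finset (Finset α) := fun S => G.filter (· ⊆ S) with he
  have hinj : Set.InjOn e F := by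
    have aux : ∀ S ∈ F, ∀ T ∈ F, e S = e T → S ⊆ T := by
      intro S hS T hT hST x hx
      obtain ⟨g, hg, hxg, hgS⟩ := hgen S hS x hx
      have : g ∈ e T := hST ▸ Finset.mem_filter.mpr ⟨hg, hgS⟩
      exact (Finset.mem_filter.mp this).2 hxg
    intro S hS T hT hST
    exact Finset.Subset.antisymm (aux S hS T hT hST) (aux T hT S hS hST.symm)
  have h1 : ∑ S ∈ F, 3 ^ cnt P (e S) ≤ ∑ S ∈ G.powerset, 3 ^ cnt P S := by
    rw [← Finset.sum_image (f := fun T => 3 ^ cnt P T) hinj]
    apply Finset.sum_le_sum_of_subset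
    intro T hT
    obtain ⟨S, _, rfl⟩ := Finset.mem_image.mp hT
    exact Finset.mem_powerset.mpr (Finset.filter_subset _ _)
  have h2 : P.card * F.card ≤ 2 * ∑ S ∈ F, cnt P (e S) := by
    have h3 : ∑ S ∈ F, cnt P (e S) = ∑ p ∈ P, (F.filter (fun S => p.1 ∉ e S ∧ p.2 ∉ e S)).card := by
      unfold cnt
      simp_rw [Finset.card_filter]
      exact Finset.sum_comm
    rw [h3, Finset.mul_sum, ← smul_eq_mul, ← Finset.sum_const]
    apply Finset.sum_le_sum
    intro p hp
    obtain ⟨x, hx1, hx2⟩ := Finset.not_disjoint_iff.mp (hr p hp)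
    have h4 : (F.filter (fun A => x ∉ A)).card ≤
        (F.filter (fun S => p.1 ∉ e S ∧ p.2 ∉ e S)).card := by
      apply Finset.card_le_card
      intro S hS
      simp only [Finset.mem_filter, he] at hS ⊢
      refine ⟨hS.1, fun hh => hS.2 (hh.2 hx1), fun hh => hS.2 (hh.2 hx2)⟩
    have h5 : (F.filter (fun A => x ∈ A)).card + (F.filter (fun A => x ∉ A)).card = F.card :=
      Finset.card_filter_add_card_filter_not _
    have h6 := hbad x
    omega
  have h3 := sum_three_pow F (fun S => cnt P (e S)) P.card h2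
  have h4 : (∑ S ∈ F, (3 : ℝ) ^ cnt P (e S)) * 4 ^ P.card ≤ 2 ^ G.card * 6 ^ P.card := by
    have : (∑ S ∈ F, 3 ^ cnt P (e S)) * 4 ^ P.card ≤ 2 ^ G.card * 6 ^ P.card := by
      rw [← hP.sum_eq, mul_comm]
      exact Nat.mul_le_mul_left _ h1
    exact_mod_cast this
  have h5 : ((F.card : ℝ)) ^ 2 * 4 ^ P.card ≤ 4 ^ G.card * 3 ^ P.card := by
    set σ := ∑ S ∈ F, (3 : ℝ) ^ cnt P (e S)
    have hσ : 0 ≤ σ := Finset.sum_nonneg (fun _ _ => by positivity)
    have h6 : (σ * 4 ^ P.card) ^ 2 ≤ (2 ^ G.card * 6 ^ P.card) ^ 2 :=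
      pow_le_pow_left₀ (by positivity) h4 2
    have h7 : (3 : ℝ) ^ P.card * (F.card : ℝ) ^ 2 * (4 ^ P.card) ^ 2 ≤
        (2 ^ G.card * 6 ^ P.card) ^ 2 := by
      calc (3 : ℝ) ^ P.card * (F.card : ℝ) ^ 2 * (4 ^ P.card) ^ 2 ≤ σ ^ 2 * (4 ^ P.card) ^ 2 :=
            mul_le_mul_of_nonneg_right h3 (by positivity)
        _ = (σ * 4 ^ P.card) ^ 2 := by ring
        _ ≤ _ := h6
    have h8 : (3 : ℝ) ^ P.card * (F.card : ℝ) ^ 2 * (4 ^ P.card) ^ 2 =
        (12 ^ P.card) * ((F.card : ℝ) ^ 2 * 4 ^ P.card) := by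
      have : (12 : ℝ) ^ P.card = 3 ^ P.card * 4 ^ P.card := by
        rw [← mul_pow]
        norm_num
      rw [this]
      ring
    have h9 : ((2 : ℝ) ^ G.card * 6 ^ P.card) ^ 2 = 12 ^ P.card * (4 ^ G.card * 3 ^ P.card) := by
      have e1 : ((2 : ℝ) ^ G.card) ^ 2 = 4 ^ G.card := by
        rw [← pow_mul, mul_comm, pow_mul]
        norm_num
      have e2 : ((6 : ℝ) ^ P.card) ^ 2 = 12 ^ P.card * 3 ^ P.card := by
        rw [← pow_mul, mul_comm, pow_mul, ← mul_pow]
        norm_num
      rw [mul_pow, e1, e2]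
      ring
    rw [h8, h9] at h7
    exact le_of_mul_le_mul_left h7 (by positivity)
  exact_mod_cast h5

end Entropy

end Pool.Agent.Helper38K2
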