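import Pool.Agent.Helper38K2.Main
import Pool.Agent.Helper38K2.Match

set_option autoImplicit false

/-!
Families with many members relative to the number of generators.
-/

namespace Pool.Agent.Helper38K2

open Finset

variable {α : Type*} [DecidableEq α]

theorem few_pairs {ν k : ℕ} (hk : 1 ≤ k) (h : 4 ^ ν ≤ 4 ^ k * 3 ^ ν) : ν < 5 * k := by
  by_contra hν
  push Not at hν
  obtain ⟨m, rfl⟩ := Nat.exists_eq_add_of_le hν
  have h1 : (4 : ℕ) ^ (5 * k) * 4 ^ m ≤ 4 ^ k * 3 ^ (5 * k) * 4 ^ m := by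
    calc (4 : ℕ) ^ (5 * k) * 4 ^ m = 4 ^ (5 * k + m) := by rw [pow_add]
      _ ≤ 4 ^ k * 3 ^ (5 * k + m) := h
      _ = 4 ^ k * 3 ^ (5 * k) * 3 ^ m := by rw [pow_add]; ring
      _ ≤ 4 ^ k * 3 ^ (5 * k) * 4 ^ m :=
        Nat.mul_le_mul_left _ (Nat.pow_le_pow_left (by norm_num) m)
  have h2 : (4 : ℕ) ^ (5 * k) ≤ 4 ^ k * 3 ^ (5 * k) := Nat.le_of_mul_le_mul_right h1 (by positivity)
  rw [pow_mul, pow_mul, ← mul_pow] at h2
  have h3 : (4 * 3 ^ 5) ^ k < (4 ^ 5) ^ k := Nat.pow_lt_pow_left (by norm_num) (by omega)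
  omega

theorem dense_thm (F G : Finset (Finset α)) (h0 : ∅ ∈ F) (hst : ∀ S ∈ F, ∀ g ∈ G, S ∪ g ∈ F)
    (hgen : ∀ S ∈ F, ∀ x ∈ S, ∃ g ∈ G, x ∈ g ∧ g ⊆ S) (k : ℕ) (hk : 1 ≤ k)
    (hkg : 600 * k ^ 2 ≤ G.card) (hdense : 2 ^ G.card ≤ 2 ^ k * F.card) :
    ∃ x, F.card ≤ 2 * (F.filter (fun A => x ∈ A)).card := by
  by_contra hcon
  push Not at hcon
  obtain ⟨P, hP, hr, hmax⟩ := exists_maximal G (fun a b : Finset α => ¬ Disjoint a b)
  have hb := pairs_bound F G hgen (fun x => (hcon x).le) hP hr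
  have hFpos : 0 < F.card := Finset.card_pos.mpr ⟨∅, h0⟩
  have h1 : 4 ^ P.card ≤ 4 ^ k * 3 ^ P.card := by
    have h2 : 4 ^ G.card ≤ 4 ^ k * F.card ^ 2 := by
      have := Nat.pow_le_pow_left hdense 2
      calc 4 ^ G.card = (2 ^ G.card) ^ 2 := by rw [← pow_mul, mul_comm, pow_mul]; norm_num
        _ ≤ (2 ^ k * F.card) ^ 2 := this
        _ = 4 ^ k * F.card ^ 2 := by
          rw [mul_pow, ← pow_mul, mul_comm k 2, pow_mul]
          norm_num
    have h3 : F.card ^ 2 * 4 ^ P.card ≤ F.card ^ 2 * (4 ^ k * 3 ^ P.card) := by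
      calc F.card ^ 2 * 4 ^ P.card ≤ 4 ^ G.card * 3 ^ P.card := hb
        _ ≤ 4 ^ k * F.card ^ 2 * 3 ^ P.card := Nat.mul_le_mul_right _ h2
        _ = _ := by ring
    exact Nat.le_of_mul_le_mul_left h3 (by positivity)
  have hν := few_pairs hk h1
  set Z : Finset (Finset α) := P.image Prod.fst ∪ P.image Prod.snd with hZ
  set D : Finset (Finset α) := (G \ Z).erase ∅ with hD
  have hZcard : Z.card ≤ 2 * P.card := by
    calc Z.card ≤ (P.image Prod.fst).card + (P.image Prod.snd).card := Finset.card_union_le _ _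
      _ ≤ P.card + P.card := Nat.add_le_add Finset.card_image_le Finset.card_image_le
      _ = 2 * P.card := by ring
  have hDcard : G.card ≤ D.card + 1 + 2 * P.card := by
    have e1 : G.card ≤ (G \ Z).card + Z.card := by
      have := Finset.card_le_card_sdiff_add_card (s := G) (t := Z)
      omega
    have e2 : (G \ Z).card ≤ D.card + 1 := by
      have := Finset.pred_card_le_card_erase (s := G \ Z) (a := ∅)
      rw [hD]
      omega
    omega
  have hZG : Z ⊆ G := by
    intro g hg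
    rcases Finset.mem_union.mp hg with hg | hg
    · obtain ⟨p, hp, rfl⟩ := Finset.mem_image.mp hg
      exact hP.mem1 p hp
    · obtain ⟨p, hp, rfl⟩ := Finset.mem_image.mp hg
      exact hP.mem2 p hp
  have hDG : D ⊆ G := (Finset.erase_subset _ _).trans Finset.sdiff_subset
  have hG : Gen F Z D := by
    refine ⟨h0, ?_, ?_, ?_, ?_⟩
    · intro S hS g hg
      exact hst S hS g (Finset.union_subset hZG hDG hg)
    · intro S hS x hx
      obtain ⟨g, hg, hxg, hgS⟩ := hgen S hS x hx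
      refine ⟨g, ?_, hxg, hgS⟩
      by_cases hgZ : g ∈ Z
      · exact Finset.mem_union_left _ hgZ
      · apply Finset.mem_union_right
        rw [hD, Finset.mem_erase, Finset.mem_sdiff]
        exact ⟨fun e => absurd (e ▸ hxg) (Finset.notMem_empty x), hg, hgZ⟩
    · intro d hd d' hd' hne
      have hd1 := Finset.mem_sdiff.mp (Finset.mem_of_mem_erase hd)
      have hd2 := Finset.mem_sdiff.mp (Finset.mem_of_mem_erase hd')
      by_contra hdis
      refine hmax d hd1.1 d' hd2.1 hne ?_ hdis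
      intro p hp
      have m1 : p.1 ∈ Z := Finset.mem_union_left _ (Finset.mem_image_of_mem _ hp)
      have m2 : p.2 ∈ Z := Finset.mem_union_right _ (Finset.mem_image_of_mem _ hp)
      exact ⟨fun e => hd1.2 (e ▸ m1), fun e => hd1.2 (e ▸ m2), fun e => hd2.2 (e ▸ m1),
        fun e => hd2.2 (e ▸ m2)⟩
    · intro d hd
      exact Finset.nonempty_iff_ne_empty.mpr (Finset.ne_of_mem_erase hd)
  have hcard : 6 * Z.card ^ 2 < D.card := by
    have e1 : Z.card + 2 ≤ 10 * k := by omega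
    have e2 : (Z.card + 2) ^ 2 ≤ (10 * k) ^ 2 := Nat.pow_le_pow_left e1 2
    have e3 : G.card ≤ D.card + 1 + (10 * k - 2) := by omega
    obtain ⟨a, ha⟩ : ∃ a, 10 * k = Z.card + 2 + a := Nat.exists_eq_add_of_le e1
    nlinarith
  obtain ⟨d, _, x, _, hx⟩ := structure_thm hG hcard
  exact absurd hx (by have := hcon x; omega)

/-- A member is determined by the generators it contains, so few members avoid an element of high
degree. -/
theorem high_degree (F G : Finset (Finset α))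
    (hgen : ∀ S ∈ F, ∀ x ∈ S, ∃ g ∈ G, x ∈ g ∧ g ⊆ S) (x : α) :
    (F.filter (fun A => x ∉ A)).card * 2 ^ (G.filter (fun g => x ∈ g)).card ≤ 2 ^ G.card := by
  have h1 : (F.filter (fun A => x ∉ A)).card ≤ (G.filter (fun g => x ∉ g)).powerset.card := by
    apply Finset.card_le_card_of_injOn (fun S => G.filter (· ⊆ S))
    · intro S hS
      rw [Finset.mem_coe, Finset.mem_filter] at hS
      rw [Finset.mem_coe, Finset.mem_powerset]
      intro g hg
      rw [Finset.mem_filter] at hg ⊢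
      exact ⟨hg.1, fun hxg => hS.2 (hg.2 hxg)⟩
    · have aux : ∀ S ∈ F, ∀ T ∈ F, G.filter (· ⊆ S) = G.filter (· ⊆ T) → S ⊆ T := by
        intro S hS T hT hST y hy
        obtain ⟨g, hg, hyg, hgS⟩ := hgen S hS y hy
        have : g ∈ G.filter (· ⊆ T) := hST ▸ Finset.mem_filter.mpr ⟨hg, hgS⟩
        exact (Finset.mem_filter.mp this).2 hyg
      intro S hS T hT hST
      rw [Finset.mem_coe, Finset.mem_filter] at hS hT
      exact Finset.Subset.antisymm (aux S hS.1 T hT.1 hST) (aux T hT.1 S hS.1 hST.symm)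
  rw [Finset.card_powerset] at h1
  have h2 : (G.filter (fun g => x ∈ g)).card + (G.filter (fun g => x ∉ g)).card = G.card :=
    Finset.card_filter_add_card_filter_not _
  calc (F.filter (fun A => x ∉ A)).card * 2 ^ (G.filter (fun g => x ∈ g)).card
      ≤ 2 ^ (G.filter (fun g => x ∉ g)).card * 2 ^ (G.filter (fun g => x ∈ g)).card :=
        Nat.mul_le_mul_right _ h1
    _ = 2 ^ G.card := by rw [← pow_add, add_comm, h2]

end Pool.Agent.Helper38K2
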