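import Pool.Agent.Helper38K2.Near4
import Pool.Agent.Helper38K2.Dense

set_option autoImplicit false

/-!
Families with many members relative to the number of generators, near-linear version.
-/

namespace Pool.Agent.Helper38K2

open Finset

variable {α : Type*} [DecidableEq α]

theorem dense_strict (F G : Finset (Finset α)) (h0 : ∅ ∈ F) (hst : ∀ S ∈ F, ∀ g ∈ G, S ∪ g ∈ F)
    (hgen : ∀ S ∈ F, ∀ x ∈ S, ∃ g ∈ G, x ∈ g ∧ g ⊆ S) (k : ℕ) (hk : 1 ≤ k)
    (hkg : k * (3000 + 140 * Nat.log 2 k) ≤ G.card) (hdense : 2 ^ G.card ≤ 2 ^ k * F.card) :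
    (∃ x, F.card < 2 * (F.filter (fun A => x ∈ A)).card) ∨
      ∃ d ∈ G, d.Nonempty ∧ (∀ A ∈ F, ∀ x ∈ d, x ∈ A → d ⊆ A) ∧ (∀ A ∈ F, A \ d ∈ F) ∧
        ∀ x ∈ d, F.card = 2 * (F.filter (fun A => x ∈ A)).card := by
  by_cases hcon : ∃ x, F.card < 2 * (F.filter (fun A => x ∈ A)).card
  · exact Or.inl hcon
  right
  push Not at hcon
  obtain ⟨P, hP, hr, hmax⟩ := exists_maximal G (fun a b : Finset α => ¬ Disjoint a b)
  have hb := pairs_bound F G hgen hcon hP hr
  have hFpos : 0 < F.card := Finset.card_pos.mpr ⟨∅, h0⟩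
  have h1 : 4 ^ P.card ≤ 4 ^ k * 3 ^ P.card := by
    have h2 : 4 ^ G.card ≤ 4 ^ k * F.card ^ 2 := by
      have := Nat.pow_le_pow_left hdense 2
      calc 4 ^ G.card = (2 ^ G.card) ^ 2 := by rw [← pow_mul, mul_comm, pow_mul]; norm_num
        _ ≤ (2 ^ k * F.card) ^ 2 := this
        _ = 4 ^ k * F.card ^ 2 := by
          rw [mul_pow, ← pow_mul, mul_comm k 2, pow_mul]
          norm_num
    have h3 : F.card ^ 2 * 4 ^ P.card ≤ F.card ^ 2 * (4 ^ k * 3 ^ P.card) := by
      calc F.card ^ 2 * 4 ^ P.card ≤ 4 ^ G.card * 3 ^ P.card := hb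
        _ ≤ 4 ^ k * F.card ^ 2 * 3 ^ P.card := Nat.mul_le_mul_right _ h2
        _ = _ := by ring
    exact Nat.le_of_mul_le_mul_left h3 (by positivity)
  have hν := few_pairs hk h1
  set Z : Finset (Finset α) := P.image Prod.fst ∪ P.image Prod.snd with hZ
  set D : Finset (Finset α) := (G \ Z).erase ∅ with hD
  have hZcard : Z.card ≤ 2 * P.card := by
    calc Z.card ≤ (P.image Prod.fst).card + (P.image Prod.snd).card := Finset.card_union_le _ _
      _ ≤ P.card + P.card := Nat.add_le_add Finset.card_image_le Finset.card_image_le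
      _ = 2 * P.card := by ring
  have hDcard : G.card ≤ D.card + 1 + 2 * P.card := by
    have e1 : G.card ≤ (G \ Z).card + Z.card := by
      have := Finset.card_le_card_sdiff_add_card (s := G) (t := Z)
      omega
    have e2 : (G \ Z).card ≤ D.card + 1 := by
      have := Finset.pred_card_le_card_erase (s := G \ Z) (a := ∅)
      rw [hD]
      omega
    omega
  have hZG : Z ⊆ G := by
    intro g hg
    rcases Finset.mem_union.mp hg with hg | hg
    · obtain ⟨p, hp, rfl⟩ := Finset.mem_image.mp hg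
      exact hP.mem1 p hp
    · obtain ⟨p, hp, rfl⟩ := Finset.mem_image.mp hg
      exact hP.mem2 p hp
  have hDG : D ⊆ G := (Finset.erase_subset _ _).trans Finset.sdiff_subset
  have hG : Gen F Z D := by
    refine ⟨h0, ?_, ?_, ?_, ?_⟩
    · intro S hS g hg
      exact hst S hS g (Finset.union_subset hZG hDG hg)
    · intro S hS x hx
      obtain ⟨g, hg, hxg, hgS⟩ := hgen S hS x hx
      refine ⟨g, ?_, hxg, hgS⟩
      by_cases hgZ : g ∈ Z
      · exact Finset.mem_union_left _ hgZ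
      · apply Finset.mem_union_right
        rw [hD, Finset.mem_erase, Finset.mem_sdiff]
        exact ⟨fun e => absurd (e ▸ hxg) (Finset.notMem_empty x), hg, hgZ⟩
    · intro d hd d' hd' hne
      have hd1 := Finset.mem_sdiff.mp (Finset.mem_of_mem_erase hd)
      have hd2 := Finset.mem_sdiff.mp (Finset.mem_of_mem_erase hd')
      by_contra hdis
      refine hmax d hd1.1 d' hd2.1 hne ?_ hdis
      intro p hp
      have m1 : p.1 ∈ Z := Finset.mem_union_left _ (Finset.mem_image_of_mem _ hp)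
      have m2 : p.2 ∈ Z := Finset.mem_union_right _ (Finset.mem_image_of_mem _ hp)
      exact ⟨fun e => hd1.2 (e ▸ m1), fun e => hd1.2 (e ▸ m2), fun e => hd2.2 (e ▸ m1),
        fun e => hd2.2 (e ▸ m2)⟩
    · intro d hd
      exact Finset.nonempty_iff_ne_empty.mpr (Finset.ne_of_mem_erase hd)
  set L := Nat.log 2 k with hLdef
  have hkL : k < 2 ^ (L + 1) := Nat.lt_pow_succ_log_self (by norm_num) k
  have e1 : Z.card + 2 ≤ 10 * k := by omega
  have e3 : G.card ≤ D.card + 1 + (10 * k - 2) := by omega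
  have hZL : Z.card ≤ 2 ^ (L + 5) := by
    have : 2 ^ (L + 5) = 2 ^ (L + 1) * 16 := by
      rw [show L + 5 = L + 1 + 4 by omega, pow_add]
      norm_num
    omega
  have hcard : (228 + 14 * (L + 5)) * Z.card < D.card := by
    obtain ⟨a, ha⟩ : ∃ a, 10 * k = Z.card + 2 + a := Nat.exists_eq_add_of_le e1
    have e4 : (228 + 14 * (L + 5)) * (Z.card + 2) ≤ (228 + 14 * (L + 5)) * (10 * k) :=
      Nat.mul_le_mul_left _ e1
    nlinarith
  rcases near_linear_strict hG (L + 5) hZL hcard with ⟨d, _, x, _, hx⟩ | ⟨d, hd, h1, h2, h3⟩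
  · exact absurd hx (by have := hcon x; omega)
  · exact ⟨d, hDG hd, hG.ne d hd, h1, h2, h3⟩

theorem dense_thm' (F G : Finset (Finset α)) (h0 : ∅ ∈ F) (hst : ∀ S ∈ F, ∀ g ∈ G, S ∪ g ∈ F)
    (hgen : ∀ S ∈ F, ∀ x ∈ S, ∃ g ∈ G, x ∈ g ∧ g ⊆ S) (k : ℕ) (hk : 1 ≤ k)
    (hkg : k * (3000 + 140 * Nat.log 2 k) ≤ G.card) (hdense : 2 ^ G.card ≤ 2 ^ k * F.card) :
    ∃ x, F.card ≤ 2 * (F.filter (fun A => x ∈ A)).card := by
  rcases dense_strict F G h0 hst hgen k hk hkg hdense with ⟨x, hx⟩ | ⟨d, _, ⟨x, hx⟩, _, _, h3⟩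
  · exact ⟨x, hx.le⟩
  · exact ⟨x, (h3 x hx).le⟩

end Pool.Agent.Helper38K2
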