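import Mathlib

set_option autoImplicit false

/-!
Selection of disjoint sets of representatives after removing a deficient part.
-/

namespace Pool.Agent.Helper38K2

open Finset

theorem hall_select {ι β : Type*} [DecidableEq ι] [DecidableEq β] (Z : Finset ι)
    (P : ι → Finset β) (t : ℕ) :
    ∃ Z0 ⊆ Z, ∃ M : ι → Finset β, (Z0.biUnion P).card ≤ t * Z0.card ∧
      (∀ z ∈ Z \ Z0, M z ⊆ P z \ Z0.biUnion P ∧ (M z).card = t) ∧
      (∀ z ∈ Z \ Z0, ∀ z' ∈ Z \ Z0, z ≠ z' → Disjoint (M z) (M z')) := by
  classical
  obtain ⟨Z0, hZ0, hmax⟩ := Finset.exists_max_image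
    (Z.powerset.filter (fun Y => (Y.biUnion P).card ≤ t * Y.card)) Finset.card
    ⟨∅, by simp⟩
  simp only [Finset.mem_filter, Finset.mem_powerset] at hZ0 hmax
  obtain ⟨hsub, hcard⟩ := hZ0
  refine ⟨Z0, hsub, ?_⟩
  set B := Z0.biUnion P with hB
  -- Hall's condition
  have key : ∀ Y ⊆ Z \ Z0, t * Y.card ≤ (Y.biUnion (fun z => P z \ B)).card := by
    intro Y hY
    rcases Finset.eq_empty_or_nonempty Y with rfl | hne
    · simp
    · by_contra hlt
      push Not at hlt
      have hdis : Disjoint Z0 Y := by
        rw [Finset.disjoint_left]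
        intro a ha hb
        exact (Finset.mem_sdiff.mp (hY hb)).2 ha
      have h1 : (Z0 ∪ Y).card = Z0.card + Y.card := Finset.card_union_of_disjoint hdis
      have h2 : ((Z0 ∪ Y).biUnion P).card ≤ t * (Z0 ∪ Y).card := by
        have hsub2 : (Z0 ∪ Y).biUnion P ⊆ B ∪ Y.biUnion (fun z => P z \ B) := by
          intro x hx
          simp only [Finset.mem_biUnion, Finset.mem_union, Finset.mem_sdiff, hB] at hx ⊢
          obtain ⟨z, hz, hxz⟩ := hx
          rcases hz with hz | hz
          · exact Or.inl ⟨z, hz, hxz⟩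
          · by_cases hxB : ∃ a ∈ Z0, x ∈ P a
            · exact Or.inl hxB
            · exact Or.inr ⟨z, hz, hxz, hxB⟩
        calc ((Z0 ∪ Y).biUnion P).card ≤ (B ∪ Y.biUnion (fun z => P z \ B)).card :=
              Finset.card_le_card hsub2
          _ ≤ B.card + (Y.biUnion (fun z => P z \ B)).card := Finset.card_union_le _ _
          _ ≤ t * Z0.card + t * Y.card := by
              exact Nat.add_le_add hcard hlt.le
          _ = t * (Z0 ∪ Y).card := by rw [h1]; ring
      have h3 := hmax (Z0 ∪ Y) ⟨Finset.union_subset hsub (hY.trans Finset.sdiff_subset), h2⟩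
      rw [h1] at h3
      have := hne.card_pos
      omega
  -- apply Hall
  let κ := {z // z ∈ Z \ Z0} × Fin t
  let T : κ → Finset β := fun p => P p.1.1 \ B
  have hall : ∀ s : Finset κ, s.card ≤ (s.biUnion T).card := by
    intro s
    set Y : Finset ι := s.image (fun p => p.1.1) with hY
    have hYsub : Y ⊆ Z \ Z0 := by
      intro z hz
      simp only [hY, Finset.mem_image] at hz
      obtain ⟨p, _, rfl⟩ := hz
      exact p.1.2
    have h1 : s.card ≤ t * Y.card := by
      have : s.card ≤ (Y ×ˢ (Finset.univ : Finset (Fin t))).card := by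
        apply Finset.card_le_card_of_injOn (fun p : κ => (p.1.1, p.2))
        · intro p hp
          simp only [Finset.coe_product, Set.mem_prod, Finset.mem_coe, Finset.mem_univ, and_true]
          exact Finset.mem_image_of_mem _ hp
        · intro p _ q _ hpq
          simp only [Prod.mk.injEq] at hpq
          exact Prod.ext (Subtype.ext hpq.1) hpq.2
      rw [Finset.card_product, Finset.card_univ, Fintype.card_fin] at this
      linarith [this, Nat.mul_comm Y.card t]
    have h2 : (Y.biUnion (fun z => P z \ B)) ⊆ s.biUnion T := by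
      intro x hx
      simp only [Finset.mem_biUnion, hY, Finset.mem_image] at hx
      obtain ⟨z, ⟨p, hp, rfl⟩, hx⟩ := hx
      exact Finset.mem_biUnion.mpr ⟨p, hp, hx⟩
    exact h1.trans ((key Y hYsub).trans (Finset.card_le_card h2))
  obtain ⟨f, hfinj, hf⟩ :=
    (Finset.all_card_le_biUnion_card_iff_exists_injective T).mp hall
  refine ⟨fun z => if h : z ∈ Z \ Z0 then Finset.univ.image (fun j => f (⟨z, h⟩, j)) else ∅,
    hcard, ?_, ?_⟩
  · intro z hz
    simp only [hz, dif_pos]
    refine ⟨?_, ?_⟩
    · intro x hx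
      simp only [Finset.mem_image, Finset.mem_univ, true_and] at hx
      obtain ⟨j, rfl⟩ := hx
      exact hf (⟨z, hz⟩, j)
    · rw [Finset.card_image_of_injective, Finset.card_univ, Fintype.card_fin]
      intro i j hij
      have := hfinj hij
      exact (Prod.ext_iff.mp this).2
  · intro z hz z' hz' hne
    simp only [hz, hz', dif_pos]
    rw [Finset.disjoint_left]
    intro x hx hx'
    simp only [Finset.mem_image, Finset.mem_univ, true_and] at hx hx'
    obtain ⟨j, rfl⟩ := hx
    obtain ⟨j', hj'⟩ := hx'
    have := (Prod.ext_iff.mp (hfinj hj')).1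
    exact hne (Subtype.ext_iff.mp this).symm

end Pool.Agent.Helper38K2
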