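import Pool.Agent.Helper38K2.Count

set_option autoImplicit false

/-!
The structure theorem.
-/

namespace Pool.Agent.Helper38K2

open Finset

variable {α : Type*} [DecidableEq α] {F Z D : Finset (Finset α)}

/-- Members that contain some `z ∈ Z1` and miss more than `s` blocks of `M z`. -/
def HH (F Z1 : Finset (Finset α)) (M : Finset α → Finset (Finset α)) (s : ℕ) :
    Finset (Finset α) :=
  F.filter (fun A => ∃ z ∈ Z1, z ⊆ A ∧ s + 1 ≤ ((M z).filter (fun d => ¬ d ⊆ A)).card)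

/-- The data used in the proof. -/
structure Data0 (F Z D Z1 : Finset (Finset α)) (M : Finset α → Finset (Finset α)) (t : ℕ) :
    Prop where
  gen : Gen F Z D
  sub : Z1 ⊆ Z
  msub : ∀ z ∈ Z1, ∀ d ∈ M z, d ∈ D ∧ Par z d
  mcard : ∀ z ∈ Z1, (M z).card = t
  mdisj : ∀ z ∈ Z1, ∀ z' ∈ Z1, z ≠ z' → Disjoint (M z) (M z')
  mpar : ∀ z ∈ Z1, ∀ d ∈ M z, ∀ z' ∈ Z, Par z' d → z' ∈ Z1

/-- The data, if every element of the blocks lies in less than half of the members. -/
structure Data (F Z D Z1 : Finset (Finset α)) (M : Finset α → Finset (Finset α)) (t : ℕ) :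
    Prop extends Data0 F Z D Z1 M t where
  bad : ∀ d ∈ D, ∀ x ∈ d, 2 * (F.filter (fun A => x ∈ A)).card < F.card

variable {Z1 : Finset (Finset α)} {M : Finset α → Finset (Finset α)} {t : ℕ}

theorem Data0.sum_eq (h : Data0 F Z D Z1 M t) (f : Finset α → ℕ) :
    ∑ d ∈ Z1.biUnion M, f d = ∑ z ∈ Z1, ∑ d ∈ M z, f d := by
  apply Finset.sum_biUnion
  intro z hz z' hz' hne
  exact h.mdisj z hz z' hz' hne

theorem Data.HH_le (h : Data F Z D Z1 M t) (s : ℕ) :
    (s + 1) * (HH F Z1 M s).card ≤ ∑ d ∈ Z1.biUnion M, (EE F Z d).card := by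
  rw [h.sum_eq]
  calc (s + 1) * (HH F Z1 M s).card = ∑ A ∈ HH F Z1 M s, (s + 1) := by
        rw [Finset.sum_const, smul_eq_mul, mul_comm]
    _ ≤ ∑ A ∈ HH F Z1 M s, ∑ z ∈ Z1, ∑ d ∈ M z, (if z ⊆ A ∧ ¬ d ⊆ A then 1 else 0) := by
        apply Finset.sum_le_sum
        intro A hA
        simp only [HH, Finset.mem_filter] at hA
        obtain ⟨_, z, hz, hzA, hle⟩ := hA
        refine hle.trans ?_
        have h1 : ((M z).filter (fun d => ¬ d ⊆ A)).card =
            ∑ d ∈ M z, (if z ⊆ A ∧ ¬ d ⊆ A then 1 else 0) := by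
          rw [Finset.card_filter]
          apply Finset.sum_congr rfl
          intro d _
          simp [hzA]
        rw [h1]
        exact Finset.single_le_sum (f := fun z => ∑ d ∈ M z, (if z ⊆ A ∧ ¬ d ⊆ A then 1 else 0))
          (fun _ _ => Nat.zero_le _) hz
    _ ≤ ∑ A ∈ F, ∑ z ∈ Z1, ∑ d ∈ M z, (if z ⊆ A ∧ ¬ d ⊆ A then 1 else 0) :=
        Finset.sum_le_sum_of_subset (Finset.filter_subset _ _)
    _ = ∑ z ∈ Z1, ∑ d ∈ M z, (F.filter (fun A => z ⊆ A ∧ ¬ d ⊆ A)).card := by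
        rw [Finset.sum_comm]
        apply Finset.sum_congr rfl
        intro z _
        rw [Finset.sum_comm]
        apply Finset.sum_congr rfl
        intro d _
        rw [Finset.card_filter]
    _ ≤ ∑ z ∈ Z1, ∑ d ∈ M z, (EE F Z d).card := by
        apply Finset.sum_le_sum
        intro z hz
        apply Finset.sum_le_sum
        intro d hd
        have := h.msub z hz d hd
        exact h.gen.gamma_lt this.1 (h.bad d this.1) this.2

theorem Data0.biUnion_sub (h : Data0 F Z D Z1 M t) : Z1.biUnion M ⊆ D := by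
  intro d hd
  obtain ⟨z, hz, hd⟩ := Finset.mem_biUnion.mp hd
  exact (h.msub z hz d hd).1

theorem Data.mult (h : Data F Z D Z1 M t) (S : Finset (Finset α)) :
    ∑ d ∈ Z1.biUnion M, (S.filter (fun A => A ∈ EE F Z d)).card ≤ Z.card * S.card := by
  calc ∑ d ∈ Z1.biUnion M, (S.filter (fun A => A ∈ EE F Z d)).card
      = ∑ d ∈ Z1.biUnion M, ∑ A ∈ S, (if A ∈ EE F Z d then 1 else 0) := by
        apply Finset.sum_congr rfl
        intro d _
        rw [Finset.card_filter]
    _ = ∑ A ∈ S, ∑ d ∈ Z1.biUnion M, (if A ∈ EE F Z d then 1 else 0) := Finset.sum_comm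
    _ ≤ ∑ A ∈ S, Z.card := by
        apply Finset.sum_le_sum
        intro A _
        rw [← Finset.card_filter]
        refine le_trans (Finset.card_le_card ?_) (h.gen.card_EE_le A)
        exact Finset.filter_subset_filter _ h.biUnion_sub
    _ = Z.card * S.card := by rw [Finset.sum_const, smul_eq_mul, mul_comm]

/-- The exceptional members outside `HH` carry a large part of the sum. -/
theorem Data.sum_le (h : Data F Z D Z1 M t) :
    ∑ d ∈ Z1.biUnion M, (EE F Z d).card ≤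
      (Z.card + 1) * ∑ d ∈ Z1.biUnion M,
        ((EE F Z d).filter (fun A => A ∉ HH F Z1 M Z.card)).card := by
  set s := Z.card
  set X := ∑ d ∈ Z1.biUnion M, (EE F Z d).card with hX
  set XN := ∑ d ∈ Z1.biUnion M, ((EE F Z d).filter (fun A => A ∉ HH F Z1 M s)).card with hXN
  set Hs := HH F Z1 M s with hHs
  have h1 : (s + 1) * Hs.card ≤ X := h.HH_le s
  have h2 : X ≤ s * Hs.card + XN := by
    rw [hX, hXN]
    refine le_trans ?_ (Nat.add_le_add_right (h.mult Hs) _)
    rw [← Finset.sum_add_distrib]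
    apply Finset.sum_le_sum
    intro d _
    rw [← Finset.card_union_add_card_inter]
    refine le_trans (Finset.card_le_card ?_) (Nat.le_add_right _ _)
    intro A hA
    simp only [Finset.mem_filter, Finset.mem_union]
    by_cases hAH : A ∈ Hs
    · exact Or.inl ⟨hAH, hA⟩
    · exact Or.inr ⟨hA, hAH⟩
  have h3 : (s + 1) * X ≤ s * X + (s + 1) * XN := by
    calc (s + 1) * X ≤ (s + 1) * (s * Hs.card + XN) := Nat.mul_le_mul_left _ h2
      _ = s * ((s + 1) * Hs.card) + (s + 1) * XN := by ring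
      _ ≤ s * X + (s + 1) * XN := Nat.add_le_add_right (Nat.mul_le_mul_left _ h1) _
  have h4 : (s + 1) * X = s * X + X := by ring
  omega

/-- Splitting of the exceptional members outside `HH`. -/
theorem Data.split (h : Data F Z D Z1 M t) (s : ℕ) :
    ∑ d ∈ Z1.biUnion M, ((EE F Z d).filter (fun A => A ∉ HH F Z1 M s)).card ≤
      Z.card * (F.filter (fun A => A ∉ HH F Z1 M s ∧ ∃ z ∈ Z1, z ⊆ A)).card +
      ∑ d ∈ Z1.biUnion M, ((EE F Z d).filter (fun A => ∀ z ∈ Z1, ¬ z ⊆ A)).card := by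
  refine le_trans ?_ (Nat.add_le_add_right
    (h.mult (F.filter (fun A => A ∉ HH F Z1 M s ∧ ∃ z ∈ Z1, z ⊆ A))) _)
  rw [← Finset.sum_add_distrib]
  apply Finset.sum_le_sum
  intro d _
  rw [← Finset.card_union_add_card_inter]
  refine le_trans (Finset.card_le_card ?_) (Nat.le_add_right _ _)
  intro A hA
  simp only [Finset.mem_filter, Finset.mem_union] at hA ⊢
  by_cases hz : ∃ z ∈ Z1, z ⊆ A
  · refine Or.inl ⟨⟨?_, hA.2, hz⟩, hA.1⟩
    exact (Finset.mem_filter.mp hA.1).1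
  · right
    refine ⟨hA.1, ?_⟩
    intro z hz' hzA
    exact hz ⟨z, hz', hzA⟩

theorem Data.m_sub_Dn (h : Data F Z D Z1 M t) {z : Finset α} (hz : z ∈ Z1) : M z ⊆ Dn D z := by
  intro d hd
  have := h.msub z hz d hd
  exact Finset.mem_filter.mpr ⟨this.1, this.2.2⟩

theorem Data.type1 (h : Data F Z D Z1 M t) (s w V : ℕ)
    (hw : ∀ z ∈ Z1, (Dn D z).card ≤ w)
    (hV : ∀ z ∈ Z1, ((M z).powerset.filter (fun J => J.card ≤ s)).card ≤ V) :
    (F.filter (fun A => A ∉ HH F Z1 M s ∧ ∃ z ∈ Z1, z ⊆ A)).card ≤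
      Z1.card * (2 ^ Z.card * (2 ^ (w - t) * V)) := by
  calc (F.filter (fun A => A ∉ HH F Z1 M s ∧ ∃ z ∈ Z1, z ⊆ A)).card
      ≤ (Z1.biUnion (fun z => F.filter
          (fun A => z ⊆ A ∧ ((M z).filter (fun d => ¬ d ⊆ A)).card ≤ s))).card := by
        apply Finset.card_le_card
        intro A hA
        simp only [Finset.mem_filter, HH, not_and, Finset.mem_biUnion] at hA ⊢
        obtain ⟨hAF, hH, z, hz, hzA⟩ := hA
        refine ⟨z, hz, hAF, hzA, ?_⟩
        by_contra hlt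
        exact hH hAF ⟨z, hz, hzA, by omega⟩
    _ ≤ ∑ z ∈ Z1, (F.filter
          (fun A => z ⊆ A ∧ ((M z).filter (fun d => ¬ d ⊆ A)).card ≤ s)).card :=
        Finset.card_biUnion_le
    _ ≤ ∑ z ∈ Z1, (2 ^ Z.card * (2 ^ (w - t) * V)) := by
        apply Finset.sum_le_sum
        intro z hz
        refine (h.gen.upper1 (h.m_sub_Dn hz) s).trans ?_
        rw [h.mcard z hz]
        apply Nat.mul_le_mul_left
        apply Nat.mul_le_mul _ (hV z hz)
        apply Nat.pow_le_pow_right (by norm_num)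
        have := hw z hz
        omega
    _ = _ := by rw [Finset.sum_const, smul_eq_mul]

theorem Data.type2 (h : Data F Z D Z1 M t) (w : ℕ) (hw : ∀ z ∈ Z1, (Dn D z).card ≤ w)
    {d : Finset α} (hd : d ∈ Z1.biUnion M) :
    ((EE F Z d).filter (fun A => ∀ z ∈ Z1, ¬ z ⊆ A)).card ≤
      Z1.card * (2 ^ Z.card * 2 ^ (w - t)) := by
  obtain ⟨z1, hz1, hdz1⟩ := Finset.mem_biUnion.mp hd
  have hdD : d ∈ D := (h.msub z1 hz1 d hdz1).1
  calc ((EE F Z d).filter (fun A => ∀ z ∈ Z1, ¬ z ⊆ A)).card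
      ≤ (Z1.biUnion (fun z => F.filter (fun A => ¬ d ⊆ A ∧ (∀ e ∈ D, e ⊆ z → e ⊆ A) ∧
          (∀ e ∈ M z, e ≠ d → e ⊆ A)))).card := by
        apply Finset.card_le_card
        intro A hA
        simp only [Finset.mem_filter, EE, Finset.mem_biUnion] at hA ⊢
        obtain ⟨⟨hAF, hdA, z, hz, hp, hzA, hzAd⟩, hno⟩ := hA
        have hzZ1 : z ∈ Z1 := h.mpar z1 hz1 d hdz1 z hz hp
        refine ⟨z, hzZ1, hAF, hdA, ?_, ?_⟩
        · intro e he hez y hy
          rcases Finset.mem_union.mp (hzAd (hez hy)) with hh | hh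
          · exact hh
          · exfalso
            have hne : e ≠ d := fun hed => hp.2 (hed ▸ hez)
            exact Finset.disjoint_left.mp (h.gen.disj e he d hdD hne) hy hh
        · intro e he hne
          have heD := h.msub z hzZ1 e he
          obtain ⟨⟨y, hyz, hye⟩, _⟩ := heD.2
          have hyA : y ∈ A := by
            rcases Finset.mem_union.mp (hzAd hyz) with hh | hh
            · exact hh
            · exfalso
              exact Finset.disjoint_left.mp (h.gen.disj e heD.1 d hdD hne) hye hh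
          obtain ⟨g, hg, hyg, hgA⟩ := h.gen.gen A hAF y hyA
          rcases Finset.mem_union.mp hg with hgZ | hgD
          · by_cases heg : e ⊆ g
            · exact heg.trans hgA
            · exfalso
              exact hno g (h.mpar z hzZ1 e he g hgZ ⟨⟨y, hyg, hye⟩, heg⟩) hgA
          · have : g = e := by
              by_contra hne'
              exact Finset.disjoint_left.mp (h.gen.disj g hgD e heD.1 hne') hyg hye
            exact this ▸ hgA
    _ ≤ ∑ z ∈ Z1, (F.filter (fun A => ¬ d ⊆ A ∧ (∀ e ∈ D, e ⊆ z → e ⊆ A) ∧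
          (∀ e ∈ M z, e ≠ d → e ⊆ A))).card := Finset.card_biUnion_le
    _ ≤ ∑ z ∈ Z1, (2 ^ Z.card * 2 ^ (w - t)) := by
        apply Finset.sum_le_sum
        intro z hz
        refine (h.gen.upper2 (h.m_sub_Dn hz)).trans ?_
        rw [h.mcard z hz]
        apply Nat.mul_le_mul_left
        apply Nat.pow_le_pow_right (by norm_num)
        have := hw z hz
        omega
    _ = _ := by rw [Finset.sum_const, smul_eq_mul]

/-- Numerical inequality. -/
theorem numeric (s : ℕ) (hs : 1 ≤ s) : (s + 1) * s * (16 ^ s + 6 * s) < 3 * 2 ^ (5 * s) := by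
  have h1 : 2 * (s * (s + 1)) ≤ 3 * 2 ^ s := by
    rcases Nat.lt_or_ge s 3 with h | h
    · interval_cases s <;> norm_num
    · clear hs
      induction s, h using Nat.le_induction with
      | base => norm_num
      | succ n hn ih =>
        rw [pow_succ]
        nlinarith
  have h2 : s < 2 ^ s := Nat.lt_two_pow_self
  have h3 : s * (s * (s + 1)) < 8 ^ s := by
    have h8 : (8 : ℕ) ^ s = 2 ^ s * (2 ^ s * 2 ^ s) := by
      rw [← mul_pow, ← mul_pow]
      norm_num
    rw [h8]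
    have : s * (s + 1) ≤ 2 ^ s * 2 ^ s := Nat.mul_le_mul h2.le h2
    have hpos : 0 < s * (s + 1) := by positivity
    calc s * (s * (s + 1)) < 2 ^ s * (s * (s + 1)) := Nat.mul_lt_mul_of_pos_right h2 hpos
      _ ≤ 2 ^ s * (2 ^ s * 2 ^ s) := Nat.mul_le_mul_left _ this
  have h5 : (2 : ℕ) ^ (5 * s) = 32 ^ s := by
    rw [pow_mul]
    norm_num
  have h6 : (32 : ℕ) ^ s = 2 ^ s * 16 ^ s := by
    rw [← mul_pow]
    norm_num
  have h7 : (32 : ℕ) ^ s = 4 ^ s * 8 ^ s := by
    rw [← mul_pow]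
    norm_num
  have h8 : (4 : ℕ) ≤ 4 ^ s := by
    calc 4 = 4 ^ 1 := by norm_num
      _ ≤ 4 ^ s := Nat.pow_le_pow_right (by norm_num) hs
  rw [h5]
  have h9 : 2 * ((s + 1) * s * 16 ^ s) ≤ 3 * 32 ^ s := by
    rw [h6]
    calc 2 * ((s + 1) * s * 16 ^ s) = (2 * (s * (s + 1))) * 16 ^ s := by ring
      _ ≤ (3 * 2 ^ s) * 16 ^ s := Nat.mul_le_mul_right _ h1
      _ = 3 * (2 ^ s * 16 ^ s) := by ring
  have h10 : 2 * ((s + 1) * s * (6 * s)) < 3 * 32 ^ s := by
    rw [h7]
    calc 2 * ((s + 1) * s * (6 * s)) = 3 * (4 * (s * (s * (s + 1)))) := by ring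
      _ < 3 * (4 * 8 ^ s) := by omega
      _ ≤ 3 * (4 ^ s * 8 ^ s) := by
        apply Nat.mul_le_mul_left
        exact Nat.mul_le_mul_right _ h8
  have h11 : (s + 1) * s * (16 ^ s + 6 * s) = (s + 1) * s * 16 ^ s + (s + 1) * s * (6 * s) := by
    ring
  rw [h11]
  omega

theorem Data.false (h : Data F Z D Z1 M t) (ht : t = 6 * Z.card) (hne : Z1.Nonempty) : False := by
  obtain ⟨z0, hz0, hmax⟩ := Finset.exists_max_image Z1 (fun z => (Dn D z).card) hne
  set s := Z.card with hs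
  set w := (Dn D z0).card with hw
  have hspos : 1 ≤ s := Finset.card_pos.mpr ⟨z0, h.sub hz0⟩
  have hZ1 : Z1.card ≤ s := Finset.card_le_card h.sub
  have htw : t ≤ w := by
    rw [← h.mcard z0 hz0]
    exact Finset.card_le_card (h.m_sub_Dn hz0)
  -- lower bound
  have hlow : t * 2 ^ (w - 1) ≤ ∑ d ∈ Z1.biUnion M, (EE F Z d).card := by
    rw [h.sum_eq]
    refine le_trans ?_ (Finset.single_le_sum (f := fun z => ∑ d ∈ M z, (EE F Z d).card)
      (fun _ _ => Nat.zero_le _) hz0)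
    rw [← h.mcard z0 hz0, ← smul_eq_mul, ← Finset.sum_const]
    apply Finset.sum_le_sum
    intro d hd
    have hd' := h.msub z0 hz0 d hd
    exact (h.gen.lower (h.sub hz0) hd'.1 hd'.2).trans (h.gen.gamma_lt hd'.1 (h.bad d hd'.1) hd'.2)
  -- upper bound
  have hup1 := h.type1 s w (16 ^ s) hmax (fun z hz =>
    card_small (M z) s ((h.mcard z hz).trans ht))
  have hup2 : ∑ d ∈ Z1.biUnion M, ((EE F Z d).filter (fun A => ∀ z ∈ Z1, ¬ z ⊆ A)).card ≤
      (s * t) * (s * (2 ^ s * 2 ^ (w - t))) := by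
    calc ∑ d ∈ Z1.biUnion M, ((EE F Z d).filter (fun A => ∀ z ∈ Z1, ¬ z ⊆ A)).card
        ≤ ∑ d ∈ Z1.biUnion M, (s * (2 ^ s * 2 ^ (w - t))) := by
          apply Finset.sum_le_sum
          intro d hd
          exact (h.type2 w hmax hd).trans (Nat.mul_le_mul_right _ hZ1)
      _ = (Z1.biUnion M).card * (s * (2 ^ s * 2 ^ (w - t))) := by
          rw [Finset.sum_const, smul_eq_mul]
      _ ≤ (s * t) * (s * (2 ^ s * 2 ^ (w - t))) := by
          apply Nat.mul_le_mul_right
          refine Finset.card_biUnion_le.trans ?_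
          calc ∑ z ∈ Z1, (M z).card = ∑ z ∈ Z1, t := Finset.sum_congr rfl h.mcard
            _ = Z1.card * t := by rw [Finset.sum_const, smul_eq_mul]
            _ ≤ s * t := Nat.mul_le_mul_right _ hZ1
  have hsplit := h.split s
  have hsum := h.sum_le
  rw [← hs] at hsum hsplit
  set X := ∑ d ∈ Z1.biUnion M, (EE F Z d).card
  set XN := ∑ d ∈ Z1.biUnion M, ((EE F Z d).filter (fun A => A ∉ HH F Z1 M s)).card
  set T2 := ∑ d ∈ Z1.biUnion M, ((EE F Z d).filter (fun A => ∀ z ∈ Z1, ¬ z ⊆ A)).card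
  set N1 := (F.filter (fun A => A ∉ HH F Z1 M s ∧ ∃ z ∈ Z1, z ⊆ A)).card
  have hN1 : N1 ≤ s * (2 ^ s * (2 ^ (w - t) * 16 ^ s)) :=
    hup1.trans (Nat.mul_le_mul_right _ hZ1)
  have hXN : XN ≤ s * (s * (2 ^ s * (2 ^ (w - t) * 16 ^ s))) +
      (s * t) * (s * (2 ^ s * 2 ^ (w - t))) :=
    hsplit.trans (Nat.add_le_add (Nat.mul_le_mul_left _ hN1) hup2)
  have hfin : t * 2 ^ (w - 1) ≤ (s + 1) * (s * (s * (2 ^ s * (2 ^ (w - t) * 16 ^ s))) +
      (s * t) * (s * (2 ^ s * 2 ^ (w - t)))) :=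
    hlow.trans (hsum.trans (Nat.mul_le_mul_left _ hXN))
  -- rewrite
  have hw1 : 2 ^ (w - 1) = 2 ^ (w - t) * 2 ^ (6 * s - 1) := by
    rw [← pow_add]
    congr 1
    omega
  have h6 : 2 * 2 ^ (6 * s - 1) = 2 ^ s * 2 ^ (5 * s) := by
    rw [← pow_add, ← pow_succ']
    congr 1
    omega
  have hnum := numeric s hspos
  have hpos : 0 < 2 ^ (w - t) * (2 ^ s * s) := by positivity
  have hL : t * 2 ^ (w - 1) = (2 ^ (w - t) * (2 ^ s * s)) * (3 * 2 ^ (5 * s)) := by
    rw [hw1, ht]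
    calc 6 * s * (2 ^ (w - 6 * s) * 2 ^ (6 * s - 1))
        = 3 * s * (2 ^ (w - 6 * s)) * (2 * 2 ^ (6 * s - 1)) := by ring
      _ = (2 ^ (w - 6 * s) * (2 ^ s * s)) * (3 * 2 ^ (5 * s)) := by rw [h6]; ring
  have hR : (s + 1) * (s * (s * (2 ^ s * (2 ^ (w - t) * 16 ^ s))) +
      (s * t) * (s * (2 ^ s * 2 ^ (w - t)))) =
      (2 ^ (w - t) * (2 ^ s * s)) * ((s + 1) * s * (16 ^ s + 6 * s)) := by
    rw [ht]
    ring
  rw [hL, hR] at hfin
  have := Nat.le_of_mul_le_mul_left hfin hpos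
  omega

/-- **Structure theorem.** If the generators are `s` arbitrary sets and more than `6 s ^ 2`
pairwise disjoint nonempty sets, then some element of the disjoint sets lies in at least half of
the members. -/
theorem structure_thm (h : Gen F Z D) (hcard : 6 * Z.card ^ 2 < D.card) :
    ∃ d ∈ D, ∃ x ∈ d, F.card ≤ 2 * (F.filter (fun A => x ∈ A)).card := by
  by_contra hcon
  push Not at hcon
  obtain ⟨Z0, hZ0, M, hB, hM, hMd⟩ := hall_select Z (fun z => D.filter (fun d => Par z d))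
    (6 * Z.card)
  set B := Z0.biUnion (fun z => D.filter (fun d => Par z d)) with hBdef
  have hBlt : B.card < D.card := by
    calc B.card ≤ 6 * Z.card * Z0.card := hB
      _ ≤ 6 * Z.card * Z.card := Nat.mul_le_mul_left _ (Finset.card_le_card hZ0)
      _ = 6 * Z.card ^ 2 := by ring
      _ < D.card := hcard
  have hpar : ∀ d ∈ D, d ∉ B → ∀ z ∈ Z, Par z d → z ∈ Z \ Z0 := by
    intro d hd hdB z hz hp
    rw [Finset.mem_sdiff]
    refine ⟨hz, fun hz0 => hdB ?_⟩
    rw [hBdef, Finset.mem_biUnion]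
    exact ⟨z, hz0, Finset.mem_filter.mpr ⟨hd, hp⟩⟩
  have hdata : Data F Z D (Z \ Z0) M (6 * Z.card) := by
    refine ⟨⟨h, Finset.sdiff_subset, ?_, fun z hz => (hM z hz).2, hMd, ?_⟩, hcon⟩
    · intro z hz d hd
      have := Finset.mem_sdiff.mp ((hM z hz).1 hd)
      exact Finset.mem_filter.mp this.1
    · intro z hz d hd z' hz' hp
      have := Finset.mem_sdiff.mp ((hM z hz).1 hd)
      exact hpar d (Finset.mem_filter.mp this.1).1 this.2 z' hz' hp
  obtain ⟨d, hd, hdB⟩ : ∃ d ∈ D, d ∉ B := by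
    by_contra hall
    push Not at hall
    exact absurd (Finset.card_le_card hall) (by omega)
  obtain ⟨z, hz, hp⟩ := h.exists_par hd (hcon d hd)
  exact hdata.false rfl ⟨z, hpar d hd hdB z hz hp⟩

end Pool.Agent.Helper38K2
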