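import Pool.Agent.Helper38K2.Main

set_option autoImplicit false

/-!
Near-linear structure theorem, part 1: positive members and the basic inequality.
-/

namespace Pool.Agent.Helper38K2

open Finset

variable {α : Type*} [DecidableEq α] {F Z D Z1 : Finset (Finset α)}
  {M : Finset α → Finset (Finset α)} {t : ℕ} {X Y : Finset α → α}

/-- The positive members at the block `d` for the element `x ∈ d`: those in which `x` lies in a
generator that is partial at `d`, and those that contain `d` and from which `d` cannot be removed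
together with `x`. -/
def PP (F Z : Finset (Finset α)) (d : Finset α) (x : α) : Finset (Finset α) :=
  F.filter (fun A => (∃ z ∈ Z, Par z d ∧ z ⊆ A ∧ x ∈ z) ∨
    (d ⊆ A ∧ ∀ A' ∈ F, x ∉ A' → A' ∪ d ≠ A))

theorem Gen.PP_le (h : Gen F Z D) {d : Finset α} (hd : d ∈ D) {x : α} (hx : x ∈ d)
    (hbad : 2 * (F.filter (fun A => x ∈ A)).card ≤ F.card) :
    (PP F Z d x).card ≤ (EE F Z d).card := by
  have hsub : PP F Z d x ⊆ F.filter (fun A => x ∈ A) := by
    intro A hA
    simp only [PP, Finset.mem_filter] at hA ⊢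
    refine ⟨hA.1, ?_⟩
    rcases hA.2 with ⟨z, _, _, hzA, hxz⟩ | ⟨hdA, _⟩
    · exact hzA hxz
    · exact hdA hx
  have h1 : (F.filter (fun A => x ∉ A ∧ A ∉ EE F Z d)).card ≤
      (F.filter (fun A => x ∈ A) \ PP F Z d x).card := by
    apply Finset.card_le_card_of_injOn (fun A => A ∪ d)
    · intro A hA
      simp only [Finset.coe_filter, Set.mem_ofPred_eq] at hA
      simp only [Finset.coe_sdiff, Set.mem_sdiff, Finset.mem_coe]
      have hAd : A ∪ d ∈ F := h.st A hA.1 d (Finset.mem_union_right _ hd)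
      refine ⟨Finset.mem_filter.mpr ⟨hAd, Finset.mem_union_right _ hx⟩, ?_⟩
      intro hP
      simp only [PP, Finset.mem_filter] at hP
      rcases hP.2 with ⟨z, hz, hp, hzA, hxz⟩ | ⟨_, hno⟩
      · apply hA.2.2
        simp only [EE, Finset.mem_filter]
        exact ⟨hA.1, fun hh => hA.2.1 (hh hx), z, hz, hp, fun hh => hA.2.1 (hh hxz), hzA⟩
      · exact hno A hA.1 hA.2.1 rfl
    · intro A hA A' hA' hEq
      simp only [Finset.coe_filter, Set.mem_ofPred_eq] at hA hA'
      simp only at hEq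
      apply Finset.Subset.antisymm
      · exact h.sub_of_sub hd hx hA.1 hA.2.1 hA'.1 hA'.2.1 hA'.2.2
          (hEq ▸ Finset.subset_union_left)
      · exact h.sub_of_sub hd hx hA'.1 hA'.2.1 hA.1 hA.2.1 hA.2.2
          (hEq ▸ Finset.subset_union_left)
  rw [Finset.card_sdiff_of_subset hsub] at h1
  have h1' := Finset.card_le_card hsub
  have h2 : (F.filter (fun A => x ∈ A)).card + (F.filter (fun A => x ∉ A)).card = F.card :=
    Finset.card_filter_add_card_filter_not _
  have h3 : (F.filter (fun A => x ∉ A)).card ≤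
      (F.filter (fun A => x ∉ A ∧ A ∉ EE F Z d)).card + (EE F Z d).card := by
    rw [← Finset.card_union_add_card_inter]
    refine le_trans (Finset.card_le_card ?_) (Nat.le_add_right _ _)
    intro A hA
    simp only [Finset.mem_filter, Finset.mem_union] at hA ⊢
    by_cases hE : A ∈ EE F Z d
    · exact Or.inr hE
    · exact Or.inl ⟨hA.1, hA.2, hE⟩
  omega

/-- The data with a choice, for every selected block `d ∈ M z`, of an element `X d` in `z` and an
element `Y d` outside `z`. -/
structure Data2 (F Z D Z1 : Finset (Finset α)) (M : Finset α → Finset (Finset α)) (t : ℕ)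
    (X Y : Finset α → α) : Prop extends Data0 F Z D Z1 M t where
  hX : ∀ z ∈ Z1, ∀ d ∈ M z, X d ∈ z ∧ X d ∈ d
  hY : ∀ z ∈ Z1, ∀ d ∈ M z, Y d ∉ z ∧ Y d ∈ d

theorem Data0.exists_choice (h : Data0 F Z D Z1 M t) (hne : (Z1.biUnion M).Nonempty) :
    ∃ X Y : Finset α → α, Data2 F Z D Z1 M t X Y := by
  classical
  obtain ⟨d0, hd0⟩ := hne
  obtain ⟨z0, hz0, hd0⟩ := Finset.mem_biUnion.mp hd0
  have hα : Nonempty α := by
    obtain ⟨x, _⟩ := h.gen.ne d0 (h.msub z0 hz0 d0 hd0).1
    exact ⟨x⟩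
  have key : ∀ d, ∃ p : α × α, ∀ z ∈ Z1, d ∈ M z →
      (p.1 ∈ z ∧ p.1 ∈ d) ∧ (p.2 ∉ z ∧ p.2 ∈ d) := by
    intro d
    by_cases hd : ∃ z ∈ Z1, d ∈ M z
    · obtain ⟨z, hz, hdz⟩ := hd
      obtain ⟨⟨x, hxz, hxd⟩, hns⟩ := (h.msub z hz d hdz).2
      obtain ⟨y, hyd, hyz⟩ := Finset.not_subset.mp hns
      refine ⟨(x, y), ?_⟩
      intro z' hz' hdz'
      have : z' = z := by
        by_contra hne
        exact Finset.disjoint_left.mp (h.mdisj z' hz' z hz hne) hdz' hdz
      subst this
      exact ⟨⟨hxz, hxd⟩, ⟨hyz, hyd⟩⟩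
    · refine ⟨Classical.arbitrary _, ?_⟩
      intro z hz hdz
      exact absurd ⟨z, hz, hdz⟩ hd
  choose p hp using key
  exact ⟨fun d => (p d).1, fun d => (p d).2,
    { toData0 := h
      hX := fun z hz d hd => (hp d z hz hd).1
      hY := fun z hz d hd => (hp d z hz hd).2 }⟩

/-- The block `j` is positive in `A`. -/
def PJ (F Z : Finset (Finset α)) (X Y : Finset α → α) (A j : Finset α) : Prop :=
  A ∈ PP F Z j (X j) ∨ A ∈ PP F Z j (Y j)

instance (F Z : Finset (Finset α)) (X Y : Finset α → α) (A j : Finset α) :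
    Decidable (PJ F Z X Y A j) := by unfold PJ; infer_instance

/-- The number of the positive blocks of `z` in `A`. -/
def pc (F Z : Finset (Finset α)) (M : Finset α → Finset (Finset α)) (X Y : Finset α → α)
    (A z : Finset α) : ℕ := ((M z).filter (fun j => PJ F Z X Y A j)).card

/-- The total number of positive blocks. -/
def NP (F Z Z1 : Finset (Finset α)) (M : Finset α → Finset (Finset α)) (X Y : Finset α → α) : ℕ :=
  ∑ A ∈ F, ∑ z ∈ Z1, pc F Z M X Y A z

/-- The total number of exceptional pairs. -/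
def NM (F Z Z1 : Finset (Finset α)) (M : Finset α → Finset (Finset α)) : ℕ :=
  ∑ d ∈ Z1.biUnion M, (EE F Z d).card

theorem Data2.NP_le (h : Data2 F Z D Z1 M t X Y)
    (hbad : ∀ d ∈ D, ∀ x ∈ d, 2 * (F.filter (fun A => x ∈ A)).card ≤ F.card) :
    NP F Z Z1 M X Y ≤ 2 * NM F Z Z1 M := by
  have h1 : NP F Z Z1 M X Y ≤
      ∑ d ∈ Z1.biUnion M, ((PP F Z d (X d)).card + (PP F Z d (Y d)).card) := by
    unfold NP pc
    rw [h.toData0.sum_eq, Finset.sum_comm]
    apply Finset.sum_le_sum
    intro z hz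
    simp_rw [Finset.card_filter]
    rw [Finset.sum_comm]
    apply Finset.sum_le_sum
    intro d hd
    rw [← Finset.card_filter, ← Finset.card_union_add_card_inter]
    refine le_trans (Finset.card_le_card ?_) (Nat.le_add_right _ _)
    intro A hA
    exact Finset.mem_union.mpr (Finset.mem_filter.mp hA).2
  refine h1.trans ?_
  unfold NM
  rw [Finset.mul_sum]
  apply Finset.sum_le_sum
  intro d hd
  obtain ⟨z, hz, hdz⟩ := Finset.mem_biUnion.mp hd
  have hdD := (h.msub z hz d hdz).1
  have e1 := h.gen.PP_le hdD (h.hX z hz d hdz).2 (hbad d hdD _ (h.hX z hz d hdz).2)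
  have e2 := h.gen.PP_le hdD (h.hY z hz d hdz).2 (hbad d hdD _ (h.hY z hz d hdz).2)
  omega

end Pool.Agent.Helper38K2
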