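import Pool.Agent.Helper38K2.Near1

set_option autoImplicit false

/-!
Near-linear structure theorem, part 2: one-short generators and removal of blocks.
-/

namespace Pool.Agent.Helper38K2

open Finset

variable {α : Type*} [DecidableEq α] {F Z D Z1 : Finset (Finset α)}
  {M : Finset α → Finset (Finset α)} {t : ℕ} {X Y : Finset α → α}

/-- `z` is one block short at `i` with respect to `A`. -/
def OS (A z i : Finset α) : Prop := Par z i ∧ ¬ z ⊆ A ∧ z ⊆ A ∪ i

instance (A z i : Finset α) : Decidable (OS A z i) := by unfold OS; infer_instance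

/-- The pairs `(A, i)` such that `z` is one block short at `i` with respect to `A`. -/
def TZ (F Z1 : Finset (Finset α)) (M : Finset α → Finset (Finset α)) (z : Finset α) :
    Finset (Finset α × Finset α) :=
  (F ×ˢ Z1.biUnion M).filter (fun p => OS p.1 z p.2)

/-- The blocks of `z` different from `i` that are not positive in `A`. -/
def UU (F Z : Finset (Finset α)) (M : Finset α → Finset (Finset α)) (X Y : Finset α → α)
    (A i z : Finset α) : Finset (Finset α) :=
  (M z).filter (fun j => j ≠ i ∧ ¬ PJ F Z X Y A j)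

/-- The blocks of `z` of which neither chosen element lies in `A`. -/
def NN (M : Finset α → Finset (Finset α)) (X Y : Finset α → α) (A z : Finset α) :
    Finset (Finset α) :=
  (M z).filter (fun k => X k ∉ A ∧ Y k ∉ A)

theorem Gen.eq_of_mem (h : Gen F Z D) {d d' : Finset α} (hd : d ∈ D) (hd' : d' ∈ D) {x : α}
    (hx : x ∈ d) (hx' : x ∈ d') : d = d' := by
  by_contra hne
  exact Finset.disjoint_left.mp (h.disj d hd d' hd' hne) hx hx'

theorem OS.mem_i {A z i : Finset α} (h : OS A z i) {x : α} (hx : x ∈ z) (hxA : x ∉ A) :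
    x ∈ i := by
  rcases Finset.mem_union.mp (h.2.2 hx) with hh | hh
  · exact absurd hh hxA
  · exact hh

theorem Gen.OS_unique (h : Gen F Z D) {A z i i' : Finset α} (hi : i ∈ D) (hi' : i' ∈ D)
    (h1 : OS A z i) (h2 : OS A z i') : i = i' := by
  obtain ⟨y, hyz, hyA⟩ := Finset.not_subset.mp h1.2.1
  exact h.eq_of_mem hi hi' (h1.mem_i hyz hyA) (h2.mem_i hyz hyA)

theorem OS.not_sub {A z i : Finset α} (h : OS A z i) : ¬ i ⊆ A := by
  intro hi
  apply h.2.1
  intro x hx
  rcases Finset.mem_union.mp (h.2.2 hx) with hh | hh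
  · exact hh
  · exact hi hh

theorem Data2.NM_le (h : Data2 F Z D Z1 M t X Y) :
    NM F Z Z1 M ≤ ∑ z ∈ Z1, (TZ F Z1 M z).card := by
  have h1 : ∀ z, (TZ F Z1 M z).card =
      ∑ i ∈ Z1.biUnion M, (F.filter (fun A => OS A z i)).card := by
    intro z
    unfold TZ
    rw [Finset.card_filter, Finset.sum_product_right]
    apply Finset.sum_congr rfl
    intro i _
    rw [Finset.card_filter]
  simp_rw [h1]
  unfold NM
  rw [Finset.sum_comm]
  apply Finset.sum_le_sum
  intro i hi
  refine le_trans (Finset.card_le_card ?_) Finset.card_biUnion_le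
  intro A hA
  obtain ⟨z0, hz0, hiz0⟩ := Finset.mem_biUnion.mp hi
  simp only [EE, Finset.mem_filter] at hA
  obtain ⟨hAF, _, z, hz, hp, hzA, hzAi⟩ := hA
  have hz1 : z ∈ Z1 := h.mpar z0 hz0 i hiz0 z hz hp
  exact Finset.mem_biUnion.mpr ⟨z, hz1, Finset.mem_filter.mpr ⟨hAF, hp, hzA, hzAi⟩⟩

theorem Data2.mem_D (h : Data2 F Z D Z1 M t X Y) {i : Finset α} (hi : i ∈ Z1.biUnion M) :
    i ∈ D := h.toData0.biUnion_sub hi

/-- If `X j ∈ A` and `j` is not positive, then `j ⊆ A`. -/
theorem Data2.sub_of_X (h : Data2 F Z D Z1 M t X Y) {A z j : Finset α} (hz : z ∈ Z1)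
    (hj : j ∈ M z) (hA : A ∈ F) (hn : ¬ PJ F Z X Y A j) (hX : X j ∈ A) : j ⊆ A := by
  have hjD := (h.msub z hz j hj).1
  have hXj := (h.hX z hz j hj).2
  obtain ⟨g, hg, hXg, hgA⟩ := h.gen.gen A hA (X j) hX
  rcases Finset.mem_union.mp hg with hgZ | hgD
  · by_cases hjg : j ⊆ g
    · exact hjg.trans hgA
    · exfalso
      apply hn
      left
      exact Finset.mem_filter.mpr ⟨hA, Or.inl ⟨g, hgZ, ⟨⟨X j, hXg, hXj⟩, hjg⟩, hgA, hXg⟩⟩
  · have : g = j := h.gen.eq_of_mem hgD hjD hXg hXj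
    exact this ▸ hgA

/-- In a subset `A'` of `A` that misses `Y j`, also `X j` is missing. -/
theorem Data2.X_notMem (h : Data2 F Z D Z1 M t X Y) {A A' z j : Finset α} (hz : z ∈ Z1)
    (hj : j ∈ M z) (hA : A ∈ F) (hn : ¬ PJ F Z X Y A j) (hA' : A' ∈ F) (hsub : A' ⊆ A)
    (hY : Y j ∉ A') : X j ∉ A' := by
  intro hX
  have hjD := (h.msub z hz j hj).1
  have hXj := (h.hX z hz j hj).2
  have hYj := (h.hY z hz j hj).2
  obtain ⟨g, hg, hXg, hgA⟩ := h.gen.gen A' hA' (X j) hX
  rcases Finset.mem_union.mp hg with hgZ | hgD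
  · by_cases hjg : j ⊆ g
    · exact hY (hgA (hjg hYj))
    · apply hn
      left
      exact Finset.mem_filter.mpr
        ⟨hA, Or.inl ⟨g, hgZ, ⟨⟨X j, hXg, hXj⟩, hjg⟩, hgA.trans hsub, hXg⟩⟩
  · have : g = j := h.gen.eq_of_mem hgD hjD hXg hXj
    exact hY (hgA (this ▸ hYj))

/-- The blocks in `UU` are contained in `A`. -/
theorem Data2.UU_sub (h : Data2 F Z D Z1 M t X Y) {A z i j : Finset α} (hz : z ∈ Z1)
    (hA : A ∈ F) (hi : i ∈ D) (hos : OS A z i) (hj : j ∈ UU F Z M X Y A i z) :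
    X j ∈ A ∧ j ⊆ A := by
  simp only [UU, Finset.mem_filter] at hj
  obtain ⟨hjM, hji, hn⟩ := hj
  have hjD := (h.msub z hz j hjM).1
  have hXj := h.hX z hz j hjM
  have hXA : X j ∈ A := by
    by_contra hXA
    exact hji (h.gen.eq_of_mem hjD hi hXj.2 (hos.mem_i hXj.1 hXA))
  exact ⟨hXA, h.sub_of_X hz hjM hA hn hXA⟩

theorem Data2.card_UU (h : Data2 F Z D Z1 M t X Y) {A z i : Finset α} (hz : z ∈ Z1) :
    t ≤ (UU F Z M X Y A i z).card + pc F Z M X Y A z + 1 := by
  have h1 : ((M z).filter (fun j => PJ F Z X Y A j)).card +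
      ((M z).filter (fun j => ¬ PJ F Z X Y A j)).card = (M z).card :=
    Finset.card_filter_add_card_filter_not _
  have h2 : ((M z).filter (fun j => ¬ PJ F Z X Y A j)).erase i ⊆ UU F Z M X Y A i z := by
    intro j hj
    simp only [Finset.mem_erase, Finset.mem_filter, UU] at hj ⊢
    exact ⟨hj.2.1, hj.1, hj.2.2⟩
  have h3 := Finset.card_le_card h2
  have h4 := Finset.pred_card_le_card_erase (s := (M z).filter (fun j => ¬ PJ F Z X Y A j)) (a := i)
  rw [h.mcard z hz] at h1
  unfold pc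
  omega

/-- A maximal set of blocks that can be removed together. -/
theorem Data2.exists_facet (h : Data2 F Z D Z1 M t X Y) {A z i : Finset α} (hz : z ∈ Z1)
    (hA : A ∈ F) (hi : i ∈ D) (hos : OS A z i) :
    ∃ J ⊆ UU F Z M X Y A i z, ∃ A' ∈ F, A' ∪ J.biUnion id = A ∧ (∀ k ∈ J, Y k ∉ A') ∧
      ∀ k ∈ UU F Z M X Y A i z, k ∉ J → PJ F Z X Y A' k := by
  classical
  set U := UU F Z M X Y A i z with hU
  obtain ⟨J, hJ, hmax⟩ := Finset.exists_max_image
    (U.powerset.filter (fun J => ∃ A' ∈ F, A' ∪ J.biUnion id = A ∧ ∀ k ∈ J, Y k ∉ A'))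
    Finset.card ⟨∅, by
      simp only [Finset.mem_filter, Finset.mem_powerset, Finset.empty_subset, true_and]
      exact ⟨A, hA, by simp, by simp⟩⟩
  simp only [Finset.mem_filter, Finset.mem_powerset] at hJ hmax
  obtain ⟨hJU, A', hA', hAJ, hYJ⟩ := hJ
  refine ⟨J, hJU, A', hA', hAJ, hYJ, ?_⟩
  intro k hk hkJ
  have hkM : k ∈ M z := (Finset.mem_filter.mp hk).1
  have hkD := (h.msub z hz k hkM).1
  have hkA := (h.UU_sub hz hA hi hos hk).2
  have hkA' : k ⊆ A' := by
    intro y hy
    have : y ∈ A' ∪ J.biUnion id := hAJ ▸ hkA hy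
    rcases Finset.mem_union.mp this with hh | hh
    · exact hh
    · exfalso
      obtain ⟨k', hk', hyk'⟩ := Finset.mem_biUnion.mp hh
      have hk'M : k' ∈ M z := (Finset.mem_filter.mp (hJU hk')).1
      have : k = k' := h.gen.eq_of_mem hkD (h.msub z hz k' hk'M).1 hy hyk'
      exact hkJ (this ▸ hk')
  right
  refine Finset.mem_filter.mpr ⟨hA', Or.inr ⟨hkA', ?_⟩⟩
  intro A'' hA'' hYA'' hEq
  have := hmax (insert k J) ⟨Finset.insert_subset hk hJU, A'', hA'', ?_, ?_⟩
  · rw [Finset.card_insert_of_notMem hkJ] at this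
    omega
  · rw [Finset.biUnion_insert, ← Finset.union_assoc]
    simp only [id]
    rw [hEq, hAJ]
  · intro k' hk'
    rcases Finset.mem_insert.mp hk' with rfl | hk'
    · exact hYA''
    · intro hY'
      exact hYJ k' hk' (hEq ▸ Finset.mem_union_left _ hY')

/-- The removed blocks can be read off from the result, up to the block `i`. -/
theorem Data2.recover (h : Data2 F Z D Z1 M t X Y) {A A' z i : Finset α} (hz : z ∈ Z1)
    (hA : A ∈ F) (hi : i ∈ D) (hos : OS A z i) {K : Finset (Finset α)}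
    (hK : K ⊆ UU F Z M X Y A i z) (hA' : A' ∈ F) (hEq : A' ∪ K.biUnion id = A)
    (hY : ∀ k ∈ K, Y k ∉ A') : K = (NN M X Y A' z).erase i := by
  have hsub : A' ⊆ A := hEq ▸ Finset.subset_union_left
  ext k
  simp only [Finset.mem_erase, NN, Finset.mem_filter]
  constructor
  · intro hk
    have hkU := hK hk
    simp only [UU, Finset.mem_filter] at hkU
    exact ⟨hkU.2.1, hkU.1, h.X_notMem hz hkU.1 hA hkU.2.2 hA' hsub (hY k hk), hY k hk⟩
  · rintro ⟨hki, hkM, hXk, _⟩
    have hkD := (h.msub z hz k hkM).1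
    have hXj := h.hX z hz k hkM
    have hXA : X k ∈ A := by
      by_contra hXA
      exact hki (h.gen.eq_of_mem hkD hi hXj.2 (hos.mem_i hXj.1 hXA))
    rw [← hEq] at hXA
    rcases Finset.mem_union.mp hXA with hh | hh
    · exact absurd hh hXk
    · obtain ⟨k', hk', hXk'⟩ := Finset.mem_biUnion.mp hh
      have hk'M : k' ∈ M z := (Finset.mem_filter.mp (hK hk')).1
      have : k = k' := h.gen.eq_of_mem hkD (h.msub z hz k' hk'M).1 hXj.2 hXk'
      exact this ▸ hk'

/-- For fixed `A'` and `z` few pairs `(A, i)` arise. -/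
theorem Data2.mult (h : Data2 F Z D Z1 M t X Y) (A' z : Finset α)
    (S : Finset (Finset α × Finset α))
    (hS : ∀ p ∈ S, p ∈ TZ F Z1 M z ∧ A' ∪ ((NN M X Y A' z).erase p.2).biUnion id = p.1) :
    S.card ≤ (NN M X Y A' z).card + 1 := by
  rw [← Finset.card_insertNone]
  apply Finset.card_le_card_of_injOn
    (fun p => if p.2 ∈ NN M X Y A' z then some p.2 else none)
  · intro p hp
    rw [Finset.mem_coe, Finset.mem_insertNone]
    intro a ha
    by_cases hh : p.2 ∈ NN M X Y A' z
    · simp only [hh, if_true, Option.mem_def, Option.some.injEq] at ha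
      exact ha ▸ hh
    · simp [hh] at ha
  · intro p hp q hq hpq
    have hp' := hS p hp
    have hq' := hS q hq
    have hpT := Finset.mem_filter.mp hp'.1
    have hqT := Finset.mem_filter.mp hq'.1
    have hpi := h.mem_D (Finset.mem_product.mp hpT.1).2
    have hqi := h.mem_D (Finset.mem_product.mp hqT.1).2
    simp only at hpq
    by_cases h1 : p.2 ∈ NN M X Y A' z
    · by_cases h2 : q.2 ∈ NN M X Y A' z
      · simp only [h1, h2, if_true, Option.some.injEq] at hpq
        have : p.1 = q.1 := by rw [← hp'.2, ← hq'.2, hpq]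
        exact Prod.ext this hpq
      · simp [h1, h2] at hpq
    · by_cases h2 : q.2 ∈ NN M X Y A' z
      · simp [h1, h2] at hpq
      · have e : p.1 = q.1 := by
          rw [← hp'.2, ← hq'.2, Finset.erase_eq_of_notMem h1, Finset.erase_eq_of_notMem h2]
        refine Prod.ext e (h.gen.OS_unique hpi hqi hpT.2 ?_)
        rw [e]
        exact hqT.2

end Pool.Agent.Helper38K2
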