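import Pool.Agent.Helper38K2.Near2

set_option autoImplicit false

/-!
Near-linear structure theorem, part 3: the counting for a fixed generator `z`.
-/

namespace Pool.Agent.Helper38K2

open Finset

variable {α : Type*} [DecidableEq α] {F Z D Z1 : Finset (Finset α)}
  {M : Finset α → Finset (Finset α)} {t : ℕ} {X Y : Finset α → α}

theorem mem_TZ {z : Finset α} {p : Finset α × Finset α} :
    p ∈ TZ F Z1 M z ↔ p.1 ∈ F ∧ p.2 ∈ Z1.biUnion M ∧ OS p.1 z p.2 := by
  simp only [TZ, Finset.mem_filter, Finset.mem_product, and_assoc]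

theorem mul_card_filter_le (s : Finset (Finset α)) (f : Finset α → ℕ) (c : ℕ) :
    c * (s.filter (fun A => c ≤ f A)).card ≤ ∑ A ∈ s, f A := by
  rw [mul_comm, ← smul_eq_mul, ← Finset.sum_const]
  calc ∑ _A ∈ s.filter (fun A => c ≤ f A), c ≤ ∑ A ∈ s.filter (fun A => c ≤ f A), f A :=
        Finset.sum_le_sum (fun A hA => (Finset.mem_filter.mp hA).2)
    _ ≤ ∑ A ∈ s, f A := Finset.sum_le_sum_of_subset (Finset.filter_subset _ _)

theorem Data2.part_a (h : Data2 F Z D Z1 M t X Y) (z : Finset α) (e : ℕ) :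
    e * ((TZ F Z1 M z).filter (fun p => e ≤ pc F Z M X Y p.1 z)).card ≤
      ∑ A ∈ F, pc F Z M X Y A z := by
  refine le_trans (Nat.mul_le_mul_left e ?_)
    (mul_card_filter_le F (fun A => pc F Z M X Y A z) e)
  apply Finset.card_le_card_of_injOn (fun p => p.1)
  · intro p hp
    simp only [Finset.coe_filter, Set.mem_ofPred_eq, mem_TZ] at hp ⊢
    exact ⟨hp.1.1, hp.2⟩
  · intro p hp q hq hpq
    simp only [Finset.coe_filter, Set.mem_ofPred_eq, mem_TZ] at hp hq
    simp only at hpq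
    refine Prod.ext hpq ?_
    exact h.gen.OS_unique (h.mem_D hp.1.2.1) (h.mem_D hq.1.2.1) hp.1.2.2 (hpq ▸ hq.1.2.2)

/-- A choice of maximal removable sets of blocks. -/
structure Facet (F Z Z1 : Finset (Finset α)) (M : Finset α → Finset (Finset α))
    (X Y : Finset α → α) (z : Finset α) (Jf : Finset α × Finset α → Finset (Finset α))
    (Af : Finset α × Finset α → Finset α) : Prop where
  sub : ∀ p ∈ TZ F Z1 M z, Jf p ⊆ UU F Z M X Y p.1 p.2 z
  mem : ∀ p ∈ TZ F Z1 M z, Af p ∈ F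
  eq : ∀ p ∈ TZ F Z1 M z, Af p ∪ (Jf p).biUnion id = p.1
  ny : ∀ p ∈ TZ F Z1 M z, ∀ k ∈ Jf p, Y k ∉ Af p
  pos : ∀ p ∈ TZ F Z1 M z, ∀ k ∈ UU F Z M X Y p.1 p.2 z, k ∉ Jf p → PJ F Z X Y (Af p) k

theorem Data2.exists_facets (h : Data2 F Z D Z1 M t X Y) {z : Finset α} (hz : z ∈ Z1) :
    ∃ Jf Af, Facet F Z Z1 M X Y z Jf Af := by
  classical
  have key : ∀ p : Finset α × Finset α, ∃ q : Finset (Finset α) × Finset α,
      p ∈ TZ F Z1 M z → q.1 ⊆ UU F Z M X Y p.1 p.2 z ∧ q.2 ∈ F ∧ q.2 ∪ q.1.biUnion id = p.1 ∧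
        (∀ k ∈ q.1, Y k ∉ q.2) ∧
        ∀ k ∈ UU F Z M X Y p.1 p.2 z, k ∉ q.1 → PJ F Z X Y q.2 k := by
    intro p
    by_cases hp : p ∈ TZ F Z1 M z
    · have hp' := mem_TZ.mp hp
      obtain ⟨J, hJ, A', hA', h1, h2, h3⟩ := h.exists_facet hz hp'.1 (h.mem_D hp'.2.1) hp'.2.2
      exact ⟨(J, A'), fun _ => ⟨hJ, hA', h1, h2, h3⟩⟩
    · exact ⟨(∅, ∅), fun hh => absurd hh hp⟩
  choose q hq using key
  exact ⟨fun p => (q p).1, fun p => (q p).2,
    { sub := fun p hp => (hq p hp).1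
      mem := fun p hp => (hq p hp).2.1
      eq := fun p hp => (hq p hp).2.2.1
      ny := fun p hp => (hq p hp).2.2.2.1
      pos := fun p hp => (hq p hp).2.2.2.2 }⟩

variable {z : Finset α} {Jf : Finset α × Finset α → Finset (Finset α)}
  {Af : Finset α × Finset α → Finset α}

theorem Data2.part_b1 (h : Data2 F Z D Z1 M t X Y) (hf : Facet F Z Z1 M X Y z Jf Af)
    (hz : z ∈ Z1) (e d : ℕ) :
    (t - e - d) * ((TZ F Z1 M z).filter
      (fun p => pc F Z M X Y p.1 z < e ∧ (Jf p).card ≤ d)).card ≤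
      (d + 2) * ∑ A ∈ F, pc F Z M X Y A z := by
  have key : ((TZ F Z1 M z).filter
      (fun p => pc F Z M X Y p.1 z < e ∧ (Jf p).card ≤ d)).card ≤
      (d + 2) * (F.filter (fun A => t - e - d ≤ pc F Z M X Y A z)).card := by
    apply Finset.card_le_mul_card_image_of_maps_to (f := Af)
    · intro p hp
      rw [Finset.mem_filter] at hp
      obtain ⟨hpT, hpe, hpd⟩ := hp
      refine Finset.mem_filter.mpr ⟨hf.mem p hpT, ?_⟩
      have h1 := h.card_UU (A := p.1) (i := p.2) hz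
      have h2 : (UU F Z M X Y p.1 p.2 z \ Jf p).card ≤ pc F Z M X Y (Af p) z := by
        apply Finset.card_le_card
        intro k hk
        rw [Finset.mem_sdiff] at hk
        refine Finset.mem_filter.mpr ⟨(Finset.mem_filter.mp hk.1).1, hf.pos p hpT k hk.1 hk.2⟩
      rw [Finset.card_sdiff_of_subset (hf.sub p hpT)] at h2
      omega
    · intro A' hA'
      set S := ((TZ F Z1 M z).filter
        (fun p => pc F Z M X Y p.1 z < e ∧ (Jf p).card ≤ d)).filter (fun p => Af p = A') with hS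
      have hrec : ∀ p ∈ S, Jf p = (NN M X Y A' z).erase p.2 := by
        intro p hp
        simp only [hS, Finset.mem_filter] at hp
        obtain ⟨⟨hpT, hpe, hpd⟩, hpA⟩ := hp
        have hp' := mem_TZ.mp hpT
        rw [← hpA]
        exact h.recover hz hp'.1 (h.mem_D hp'.2.1) hp'.2.2 (hf.sub p hpT) (hf.mem p hpT)
          (hf.eq p hpT) (hf.ny p hpT)
      have hm : S.card ≤ (NN M X Y A' z).card + 1 := by
        apply h.mult A' z S
        intro p hp
        have hr := hrec p hp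
        simp only [hS, Finset.mem_filter] at hp
        obtain ⟨⟨hpT, hpe, hpd⟩, hpA⟩ := hp
        refine ⟨hpT, ?_⟩
        rw [← hr, ← hpA]
        exact hf.eq p hpT
      rcases S.eq_empty_or_nonempty with hE | ⟨p, hp⟩
      · rw [hE]; simp
      · have hr := hrec p hp
        simp only [hS, Finset.mem_filter] at hp
        obtain ⟨⟨hpT, hpe, hpd⟩, hpA⟩ := hp
        have := Finset.pred_card_le_card_erase (s := NN M X Y A' z) (a := p.2)
        rw [← hr] at this
        omega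
  calc (t - e - d) * _ ≤ (t - e - d) * ((d + 2) *
        (F.filter (fun A => t - e - d ≤ pc F Z M X Y A z)).card) := Nat.mul_le_mul_left _ key
    _ = (d + 2) * ((t - e - d) *
        (F.filter (fun A => t - e - d ≤ pc F Z M X Y A z)).card) := by ring
    _ ≤ (d + 2) * ∑ A ∈ F, pc F Z M X Y A z := Nat.mul_le_mul_left _ (mul_card_filter_le _ _ _)

/-- Removing the blocks in `K` only. -/
def AK (Jf : Finset α × Finset α → Finset (Finset α)) (Af : Finset α × Finset α → Finset α)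
    (p : Finset α × Finset α) (K : Finset (Finset α)) : Finset α :=
  Af p ∪ (Jf p \ K).biUnion id

theorem Gen.union_biUnion (h : Gen F Z D) {A : Finset α} (hA : A ∈ F) (J : Finset (Finset α))
    (hJ : J ⊆ D) : A ∪ J.biUnion id ∈ F := by
  classical
  induction J using Finset.induction_on with
  | empty => simpa using hA
  | insert d J hd ih =>
    have h1 := ih ((Finset.subset_insert d J).trans hJ)
    have h2 := h.st _ h1 d (Finset.mem_union_right _ (hJ (Finset.mem_insert_self d J)))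
    rw [Finset.biUnion_insert]
    simp only [id]
    have : A ∪ (d ∪ J.biUnion id) = A ∪ J.biUnion id ∪ d := by
      rw [Finset.union_comm d, Finset.union_assoc]
    rw [this]
    exact h2

theorem Data2.UU_D (h : Data2 F Z D Z1 M t X Y) (hz : z ∈ Z1) {A i : Finset α} :
    UU F Z M X Y A i z ⊆ D := by
  intro k hk
  exact (h.msub z hz k (Finset.mem_filter.mp hk).1).1

theorem Data2.AK_mem (h : Data2 F Z D Z1 M t X Y) (hf : Facet F Z Z1 M X Y z Jf Af)
    (hz : z ∈ Z1) {p : Finset α × Finset α} (hp : p ∈ TZ F Z1 M z) (K : Finset (Finset α)) :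
    AK Jf Af p K ∈ F :=
  h.gen.union_biUnion (hf.mem p hp) _
    ((Finset.sdiff_subset.trans (hf.sub p hp)).trans (h.UU_D hz))

theorem Facet.AK_eq (hf : Facet F Z Z1 M X Y z Jf Af)
    {p : Finset α × Finset α} (hp : p ∈ TZ F Z1 M z) {K : Finset (Finset α)} (hK : K ⊆ Jf p) :
    AK Jf Af p K ∪ K.biUnion id = p.1 := by
  unfold AK
  rw [Finset.union_assoc, ← Finset.union_biUnion, Finset.sdiff_union_of_subset hK]
  exact hf.eq p hp

theorem Data2.AK_ny (h : Data2 F Z D Z1 M t X Y) (hf : Facet F Z Z1 M X Y z Jf Af)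
    (hz : z ∈ Z1) {p : Finset α × Finset α} (hp : p ∈ TZ F Z1 M z) {K : Finset (Finset α)}
    (hK : K ⊆ Jf p) : ∀ k ∈ K, Y k ∉ AK Jf Af p K := by
  intro k hk hY
  have hkU := hf.sub p hp (hK hk)
  have hkM : k ∈ M z := (Finset.mem_filter.mp hkU).1
  rcases Finset.mem_union.mp hY with hh | hh
  · exact hf.ny p hp k (hK hk) hh
  · obtain ⟨k', hk', hYk'⟩ := Finset.mem_biUnion.mp hh
    rw [Finset.mem_sdiff] at hk'
    have hk'D : k' ∈ D := h.UU_D hz (hf.sub p hp hk'.1)
    have : k = k' := h.gen.eq_of_mem (h.UU_D hz hkU) hk'D (h.hY z hz k hkM).2 hYk'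
    exact hk'.2 (this ▸ hk)

/-- All blocks of a generator contained in `A` are positive. -/
theorem Data2.pc_eq (h : Data2 F Z D Z1 M t X Y) {A g : Finset α} (hA : A ∈ F) (hg : g ∈ Z1)
    (hgA : g ⊆ A) : pc F Z M X Y A g = t := by
  unfold pc
  rw [← h.mcard g hg]
  congr 1
  apply Finset.filter_true_of_mem
  intro j hj
  left
  exact Finset.mem_filter.mpr
    ⟨hA, Or.inl ⟨g, h.sub hg, (h.msub g hg j hj).2, hgA, (h.hX g hg j hj).1⟩⟩

theorem pow_mul_card_le_card_sigma (S : Finset (Finset α × Finset α)) (d : ℕ)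
    (hS : ∀ p ∈ S, d + 1 ≤ (Jf p).card) :
    2 ^ (d + 1) * S.card ≤ (S.sigma (fun p => (Jf p).powerset)).card := by
  rw [Finset.card_sigma, mul_comm, ← smul_eq_mul, ← Finset.sum_const]
  apply Finset.sum_le_sum
  intro p hp
  rw [Finset.card_powerset]
  exact Nat.pow_le_pow_right (by norm_num) (hS p hp)

theorem Data2.part_II (h : Data2 F Z D Z1 M t X Y) (hf : Facet F Z Z1 M X Y z Jf Af)
    (hz : z ∈ Z1) (d : ℕ) :
    2 ^ (d + 1) * ((TZ F Z1 M z).filter
      (fun p => d + 1 ≤ (Jf p).card ∧ (p.1 ∩ p.2).Nonempty)).card ≤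
      (t + 1) * (F.filter (fun A => t ≤ ∑ z' ∈ Z1, pc F Z M X Y A z')).card := by
  set S := (TZ F Z1 M z).filter (fun p => d + 1 ≤ (Jf p).card ∧ (p.1 ∩ p.2).Nonempty) with hSdef
  refine le_trans (pow_mul_card_le_card_sigma (Jf := Jf) S d
    (fun p hp => (Finset.mem_filter.mp hp).2.1)) ?_
  have hrec : ∀ q ∈ S.sigma (fun p => (Jf p).powerset),
      q.2 = (NN M X Y (AK Jf Af q.1 q.2) z).erase q.1.2 := by
    intro q hq
    rw [Finset.mem_sigma, Finset.mem_powerset] at hq
    have hpT := (Finset.mem_filter.mp hq.1).1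
    have hp' := mem_TZ.mp hpT
    exact h.recover hz hp'.1 (h.mem_D hp'.2.1) hp'.2.2 (hq.2.trans (hf.sub _ hpT))
      (h.AK_mem hf hz hpT _) (hf.AK_eq hpT hq.2) (h.AK_ny hf hz hpT hq.2)
  apply Finset.card_le_mul_card_image_of_maps_to (f := fun q => AK Jf Af q.1 q.2)
  · intro q hq
    rw [Finset.mem_sigma, Finset.mem_powerset] at hq
    obtain ⟨hqS, hK⟩ := hq
    have hqS' := Finset.mem_filter.mp hqS
    have hpT := hqS'.1
    have hp' := mem_TZ.mp hpT
    have hAK := h.AK_mem hf hz hpT q.2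
    refine Finset.mem_filter.mpr ⟨hAK, ?_⟩
    obtain ⟨x, hx⟩ := hqS'.2.2
    rw [Finset.mem_inter] at hx
    have hiD := h.mem_D hp'.2.1
    have hxAK : x ∈ AK Jf Af q.1 q.2 := by
      have hx1 := hx.1
      rw [← hf.AK_eq hpT hK] at hx1
      rcases Finset.mem_union.mp hx1 with hh | hh
      · exact hh
      · exfalso
        obtain ⟨k, hk, hxk⟩ := Finset.mem_biUnion.mp hh
        have hkU := hf.sub _ hpT (hK hk)
        have : k = q.1.2 := h.gen.eq_of_mem (h.UU_D hz hkU) hiD hxk hx.2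
        exact (Finset.mem_filter.mp hkU).2.1 this
    obtain ⟨g, hg, hxg, hgA⟩ := h.gen.gen _ hAK x hxAK
    have hsub : AK Jf Af q.1 q.2 ⊆ q.1.1 := by
      conv_rhs => rw [← hf.AK_eq hpT hK]
      exact Finset.subset_union_left
    have hni : ¬ q.1.2 ⊆ g := fun hh => hp'.2.2.not_sub (hh.trans (hgA.trans hsub))
    have hgZ : g ∈ Z := by
      rcases Finset.mem_union.mp hg with hh | hh
      · exact hh
      · exfalso
        apply hni
        rw [h.gen.eq_of_mem hh hiD hxg hx.2]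
    obtain ⟨z0, hz0, hiz0⟩ := Finset.mem_biUnion.mp hp'.2.1
    have hg1 : g ∈ Z1 := h.mpar z0 hz0 _ hiz0 g hgZ ⟨⟨x, hxg, hx.2⟩, hni⟩
    calc t = pc F Z M X Y (AK Jf Af q.1 q.2) g := (h.pc_eq hAK hg1 hgA).symm
      _ ≤ ∑ z' ∈ Z1, pc F Z M X Y (AK Jf Af q.1 q.2) z' :=
        Finset.single_le_sum (f := fun z' => pc F Z M X Y (AK Jf Af q.1 q.2) z')
          (fun _ _ => Nat.zero_le _) hg1
  · intro A' hA'
    set R := (S.sigma (fun p => (Jf p).powerset)).filter
      (fun q => AK Jf Af q.1 q.2 = A') with hR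
    have h1 : R.card ≤ (R.image (fun q => q.1)).card := by
      rw [Finset.card_image_of_injOn]
      intro q hq q' hq' hqq
      simp only [hR, Finset.coe_filter, Set.mem_ofPred_eq] at hq hq'
      simp only at hqq
      have e1 := hrec q hq.1
      have e2 := hrec q' hq'.1
      rw [hq.2] at e1
      rw [hq'.2] at e2
      obtain ⟨p, K⟩ := q
      obtain ⟨p', K'⟩ := q'
      simp only at hqq e1 e2
      subst hqq
      rw [e1, e2]
    refine h1.trans ((h.mult A' z (R.image (fun q => q.1)) ?_).trans ?_)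
    · intro p hp
      obtain ⟨q, hq, rfl⟩ := Finset.mem_image.mp hp
      rw [hR, Finset.mem_filter] at hq
      have e1 := hrec q hq.1
      rw [hq.2] at e1
      have hq1 := hq.1
      rw [Finset.mem_sigma, Finset.mem_powerset] at hq1
      have hpT := (Finset.mem_filter.mp hq1.1).1
      refine ⟨hpT, ?_⟩
      rw [← e1, ← hq.2]
      exact hf.AK_eq hpT hq1.2
    · have : (NN M X Y A' z).card ≤ (M z).card := Finset.card_filter_le _ _
      rw [h.mcard z hz] at this
      omega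

theorem Data2.part_I (h : Data2 F Z D Z1 M t X Y) (hf : Facet F Z Z1 M X Y z Jf Af)
    (hz : z ∈ Z1) (e d : ℕ) :
    2 ^ (d + 1) * ((TZ F Z1 M z).filter
      (fun p => d + 1 ≤ (Jf p).card ∧ ¬ (p.1 ∩ p.2).Nonempty ∧ pc F Z M X Y p.1 z < e)).card ≤
      ((M z).powerset.filter (fun Q => Q.card ≤ e)).card *
        ((F.filter (fun A => z ⊆ A)).card * (Z1.biUnion M).card) := by
  set S := (TZ F Z1 M z).filter
    (fun p => d + 1 ≤ (Jf p).card ∧ ¬ (p.1 ∩ p.2).Nonempty ∧ pc F Z M X Y p.1 z < e) with hSdef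
  refine le_trans (pow_mul_card_le_card_sigma (Jf := Jf) S d
    (fun p hp => (Finset.mem_filter.mp hp).2.1)) ?_
  rw [← Finset.card_product]
  -- facts about the pairs `(p, K)`
  have hfacts : ∀ q ∈ S.sigma (fun p => (Jf p).powerset),
      q.2 ⊆ (M z).filter (fun k => Y k ∉ AK Jf Af q.1 q.2 ∪ z) ∧
      ((M z).filter (fun k => Y k ∉ AK Jf Af q.1 q.2 ∪ z) \ q.2).card ≤ e ∧
      (AK Jf Af q.1 q.2 ∪ z ∪ q.2.biUnion id) \ q.1.2 = q.1.1 := by
    intro q hq
    rw [Finset.mem_sigma, Finset.mem_powerset] at hq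
    obtain ⟨hqS, hK⟩ := hq
    have hqS' := Finset.mem_filter.mp hqS
    have hpT := hqS'.1
    have hp' := mem_TZ.mp hpT
    have hiD := h.mem_D hp'.2.1
    refine ⟨?_, ?_, ?_⟩
    · intro k hk
      have hkM : k ∈ M z := (Finset.mem_filter.mp (hf.sub _ hpT (hK hk))).1
      refine Finset.mem_filter.mpr ⟨hkM, ?_⟩
      intro hh
      rcases Finset.mem_union.mp hh with hh | hh
      · exact h.AK_ny hf hz hpT hK k hk hh
      · exact (h.hY z hz k hkM).1 hh
    · have hsub : (M z).filter (fun k => Y k ∉ AK Jf Af q.1 q.2 ∪ z) \ q.2 ⊆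
          insert q.1.2 ((M z).filter (fun j => PJ F Z X Y q.1.1 j)) := by
        intro k hk
        rw [Finset.mem_sdiff, Finset.mem_filter] at hk
        obtain ⟨⟨hkM, hkY⟩, hkK⟩ := hk
        rw [Finset.mem_insert, Finset.mem_filter]
        by_contra hcon
        push Not at hcon
        have hkU : k ∈ UU F Z M X Y q.1.1 q.1.2 z :=
          Finset.mem_filter.mpr ⟨hkM, hcon.1, hcon.2 hkM⟩
        have hkA := (h.UU_sub hz hp'.1 hiD hp'.2.2 hkU).2
        have hYk := (h.hY z hz k hkM).2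
        have hYA := hkA hYk
        rw [← hf.AK_eq hpT hK] at hYA
        rcases Finset.mem_union.mp hYA with hh | hh
        · exact hkY (Finset.mem_union_left _ hh)
        · obtain ⟨k', hk', hYk'⟩ := Finset.mem_biUnion.mp hh
          have hk'D : k' ∈ D := h.UU_D hz (hf.sub _ hpT (hK hk'))
          have : k = k' := h.gen.eq_of_mem (h.UU_D hz hkU) hk'D hYk hYk'
          exact hkK (this ▸ hk')
      have h1 := Finset.card_le_card hsub
      have h2 := Finset.card_insert_le q.1.2 ((M z).filter (fun j => PJ F Z X Y q.1.1 j))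
      have h3 := hqS'.2.2.2
      unfold pc at h3
      omega
    · have e1 : AK Jf Af q.1 q.2 ∪ z ∪ q.2.biUnion id = q.1.1 ∪ z := by
        rw [Finset.union_assoc, Finset.union_comm z, ← Finset.union_assoc, hf.AK_eq hpT hK]
      rw [e1]
      ext x
      rw [Finset.mem_sdiff, Finset.mem_union]
      constructor
      · rintro ⟨hx | hx, hxi⟩
        · exact hx
        · by_contra hxA
          exact hxi (hp'.2.2.mem_i hx hxA)
      · intro hx
        exact ⟨Or.inl hx, fun hxi => hqS'.2.2.1 ⟨x, Finset.mem_inter.mpr ⟨hx, hxi⟩⟩⟩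
  apply Finset.card_le_mul_card_image_of_maps_to
    (f := fun q => (AK Jf Af q.1 q.2 ∪ z, q.1.2))
  · intro q hq
    rw [Finset.mem_sigma, Finset.mem_powerset] at hq
    obtain ⟨hqS, hK⟩ := hq
    have hqS' := Finset.mem_filter.mp hqS
    have hpT := hqS'.1
    have hp' := mem_TZ.mp hpT
    rw [Finset.mem_product, Finset.mem_filter]
    exact ⟨⟨h.gen.st _ (h.AK_mem hf hz hpT _) z (Finset.mem_union_left _ (h.sub hz)),
      Finset.subset_union_right⟩, hp'.2.1⟩
  · rintro ⟨B, i⟩ hB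
    apply Finset.card_le_card_of_injOn
      (fun q => (M z).filter (fun k => Y k ∉ B) \ q.2)
    · intro q hq
      rw [Finset.mem_coe, Finset.mem_filter] at hq
      obtain ⟨hq, hqB⟩ := hq
      simp only [Prod.mk.injEq] at hqB
      obtain ⟨hf1, hf2, hf3⟩ := hfacts q hq
      rw [hqB.1] at hf2
      rw [Finset.mem_coe, Finset.mem_filter, Finset.mem_powerset]
      exact ⟨Finset.sdiff_subset.trans (Finset.filter_subset _ _), hf2⟩
    · intro q hq q' hq' hqq
      rw [Finset.mem_coe, Finset.mem_filter] at hq hq'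
      obtain ⟨hq, hqB⟩ := hq
      obtain ⟨hq', hqB'⟩ := hq'
      simp only [Prod.mk.injEq] at hqB hqB'
      obtain ⟨hf1, hf2, hf3⟩ := hfacts q hq
      obtain ⟨hf1', hf2', hf3'⟩ := hfacts q' hq'
      rw [hqB.1] at hf1 hf3
      rw [hqB'.1] at hf1' hf3'
      simp only at hqq
      have hK : q.2 = q'.2 := by
        rw [← Finset.sdiff_sdiff_eq_self hf1, ← Finset.sdiff_sdiff_eq_self hf1', hqq]
      obtain ⟨⟨A, i1⟩, K⟩ := q
      obtain ⟨⟨A', i2⟩, K'⟩ := q'
      simp only at hK hqB hqB' hf3 hf3'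
      obtain ⟨_, rfl⟩ := hqB
      obtain ⟨_, rfl⟩ := hqB'
      subst hK
      rw [hf3] at hf3'
      subst hf3'
      rfl

end Pool.Agent.Helper38K2
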