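import Pool.Agent.Helper38K2.Near3

set_option autoImplicit false

/-!
Near-linear structure theorem, part 4: the conclusion.
-/

namespace Pool.Agent.Helper38K2

open Finset

variable {α : Type*} [DecidableEq α] {F Z D Z1 : Finset (Finset α)}
  {M : Finset α → Finset (Finset α)} {t : ℕ} {X Y : Finset α → α}

theorem NP_eq : NP F Z Z1 M X Y = ∑ z ∈ Z1, ∑ A ∈ F, pc F Z M X Y A z := by
  unfold NP
  rw [Finset.sum_comm]

/-- The bound for a fixed generator `z`. -/
theorem Data2.bound_z (d : ℕ) (h : Data2 F Z D Z1 M (7 * d + 18) X Y) {z : Finset α}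
    (hz : z ∈ Z1) {V : ℕ} (hV : ((M z).powerset.filter (fun Q => Q.card ≤ 4)).card ≤ V) :
    12 * 2 ^ (d + 1) * (TZ F Z1 M z).card ≤
      (5 * 2 ^ (d + 1) + 12 * V * Z1.card) * ∑ A ∈ F, pc F Z M X Y A z +
        24 * NP F Z Z1 M X Y := by
  classical
  obtain ⟨Jf, Af, hf⟩ := h.exists_facets hz
  set T := TZ F Z1 M z with hT
  set P := ∑ A ∈ F, pc F Z M X Y A z with hP
  have hsplit : T.card ≤ (T.filter (fun p => 4 ≤ pc F Z M X Y p.1 z)).card +
      (T.filter (fun p => pc F Z M X Y p.1 z < 4 ∧ (Jf p).card ≤ d)).card +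
      (T.filter (fun p => d + 1 ≤ (Jf p).card ∧ (p.1 ∩ p.2).Nonempty)).card +
      (T.filter (fun p => d + 1 ≤ (Jf p).card ∧ ¬ (p.1 ∩ p.2).Nonempty ∧
        pc F Z M X Y p.1 z < 4)).card := by
    refine le_trans (Finset.card_le_card (t := ((T.filter (fun p => 4 ≤ pc F Z M X Y p.1 z)) ∪
      (T.filter (fun p => pc F Z M X Y p.1 z < 4 ∧ (Jf p).card ≤ d))) ∪
      (T.filter (fun p => d + 1 ≤ (Jf p).card ∧ (p.1 ∩ p.2).Nonempty)) ∪
      (T.filter (fun p => d + 1 ≤ (Jf p).card ∧ ¬ (p.1 ∩ p.2).Nonempty ∧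
        pc F Z M X Y p.1 z < 4))) ?_) ?_
    · intro p hp
      simp only [Finset.mem_union, Finset.mem_filter, hp, true_and]
      by_cases h1 : 4 ≤ pc F Z M X Y p.1 z
      · exact Or.inl (Or.inl (Or.inl h1))
      · by_cases h2 : (Jf p).card ≤ d
        · exact Or.inl (Or.inl (Or.inr ⟨by omega, h2⟩))
        · by_cases h3 : (p.1 ∩ p.2).Nonempty
          · exact Or.inl (Or.inr ⟨by omega, h3⟩)
          · exact Or.inr ⟨by omega, h3, by omega⟩
    · refine (Finset.card_union_le _ _).trans ?_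
      refine Nat.add_le_add_right ((Finset.card_union_le _ _).trans ?_) _
      exact Nat.add_le_add_right (Finset.card_union_le _ _) _
  have ha := h.part_a z 4
  have hb := h.part_b1 hf hz 4 d
  have hII := h.part_II hf hz d
  have hI := h.part_I hf hz 4 d
  rw [← hT, ← hP] at ha hb
  rw [← hT] at hII hI
  set a := (T.filter (fun p => 4 ≤ pc F Z M X Y p.1 z)).card
  set b := (T.filter (fun p => pc F Z M X Y p.1 z < 4 ∧ (Jf p).card ≤ d)).card
  set c := (T.filter (fun p => d + 1 ≤ (Jf p).card ∧ (p.1 ∩ p.2).Nonempty)).card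
  set f := (T.filter (fun p => d + 1 ≤ (Jf p).card ∧ ¬ (p.1 ∩ p.2).Nonempty ∧
        pc F Z M X Y p.1 z < 4)).card
  -- b
  have hb' : 6 * b ≤ P := by
    have e1 : 7 * d + 18 - 4 - d = 6 * d + 14 := by omega
    rw [e1] at hb
    have e2 : (d + 2) * (6 * b) ≤ (d + 2) * P := by
      calc (d + 2) * (6 * b) = (6 * d + 12) * b := by ring
        _ ≤ (6 * d + 14) * b := Nat.mul_le_mul_right _ (by omega)
        _ ≤ (d + 2) * P := hb
    exact Nat.le_of_mul_le_mul_left e2 (by omega)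
  -- c
  have hc' : 2 ^ (d + 1) * c ≤ 2 * NP F Z Z1 M X Y := by
    have e1 := mul_card_filter_le F (fun A => ∑ z' ∈ Z1, pc F Z M X Y A z') (7 * d + 18)
    change _ ≤ NP F Z Z1 M X Y at e1
    set q := (F.filter (fun A => 7 * d + 18 ≤ ∑ z' ∈ Z1, pc F Z M X Y A z')).card
    calc 2 ^ (d + 1) * c ≤ (7 * d + 18 + 1) * q := hII
      _ ≤ 2 * ((7 * d + 18) * q) := by nlinarith
      _ ≤ _ := Nat.mul_le_mul_left _ e1
  -- f
  have hf' : 2 ^ (d + 1) * f ≤ V * Z1.card * P := by
    have e1 : (7 * d + 18) * (F.filter (fun A => z ⊆ A)).card ≤ P := by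
      refine le_trans (Nat.mul_le_mul_left _ (Finset.card_le_card ?_))
        (mul_card_filter_le F (fun A => pc F Z M X Y A z) (7 * d + 18))
      intro A hA
      rw [Finset.mem_filter] at hA ⊢
      exact ⟨hA.1, (h.pc_eq hA.1 hz hA.2).ge⟩
    have e2 : (Z1.biUnion M).card ≤ Z1.card * (7 * d + 18) := by
      refine Finset.card_biUnion_le.trans ?_
      calc ∑ z ∈ Z1, (M z).card = ∑ z ∈ Z1, (7 * d + 18) := Finset.sum_congr rfl h.mcard
        _ = Z1.card * (7 * d + 18) := by rw [Finset.sum_const, smul_eq_mul]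
        _ ≤ _ := le_rfl
    calc 2 ^ (d + 1) * f ≤ _ := hI
      _ ≤ V * ((F.filter (fun A => z ⊆ A)).card * (Z1.card * (7 * d + 18))) :=
        Nat.mul_le_mul hV (Nat.mul_le_mul_left _ e2)
      _ = V * Z1.card * ((7 * d + 18) * (F.filter (fun A => z ⊆ A)).card) := by ring
      _ ≤ V * Z1.card * P := Nat.mul_le_mul_left _ e1
  calc 12 * 2 ^ (d + 1) * T.card ≤ 12 * 2 ^ (d + 1) * (a + b + c + f) :=
        Nat.mul_le_mul_left _ hsplit
    _ = 2 ^ (d + 1) * (3 * (4 * a) + 2 * (6 * b)) + 12 * (2 ^ (d + 1) * c) +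
        12 * (2 ^ (d + 1) * f) := by ring
    _ ≤ 2 ^ (d + 1) * (3 * P + 2 * P) + 12 * (2 * NP F Z Z1 M X Y) +
        12 * (V * Z1.card * P) := by
        have := Nat.mul_le_mul_left (2 ^ (d + 1))
          (Nat.add_le_add (Nat.mul_le_mul_left 3 ha) (Nat.mul_le_mul_left 2 hb'))
        omega
    _ = (5 * 2 ^ (d + 1) + 12 * V * Z1.card) * P + 24 * NP F Z Z1 M X Y := by ring

theorem Data2.false (d : ℕ) (h : Data2 F Z D Z1 M (7 * d + 18) X Y)
    (hbad : ∀ d ∈ D, ∀ x ∈ d, 2 * (F.filter (fun A => x ∈ A)).card ≤ F.card)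
    (hne : Z1.Nonempty) {V : ℕ}
    (hV : ∀ z ∈ Z1, ((M z).powerset.filter (fun Q => Q.card ≤ 4)).card ≤ V)
    (hs : 12 * Z1.card * (2 + V) < 2 ^ (d + 1)) : False := by
  have h1 := h.NP_le hbad
  have h2 := h.NM_le
  have hpos : 0 < NP F Z Z1 M X Y := by
    obtain ⟨z, hz⟩ := hne
    have hzF : z ∈ F := by
      have := h.gen.st ∅ h.gen.emp z (Finset.mem_union_left _ (h.sub hz))
      rwa [Finset.empty_union] at this
    have e1 : pc F Z M X Y z z = 7 * d + 18 := h.pc_eq hzF hz (Finset.Subset.refl z)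
    unfold NP
    refine lt_of_lt_of_le ?_ (Finset.single_le_sum
      (f := fun A => ∑ z ∈ Z1, pc F Z M X Y A z) (fun _ _ => Nat.zero_le _) hzF)
    refine lt_of_lt_of_le ?_ (Finset.single_le_sum
      (f := fun z' => pc F Z M X Y z z') (fun _ _ => Nat.zero_le _) hz)
    omega
  have h3 : 12 * 2 ^ (d + 1) * NM F Z Z1 M ≤
      (5 * 2 ^ (d + 1) + 12 * V * Z1.card) * NP F Z Z1 M X Y +
        Z1.card * (24 * NP F Z Z1 M X Y) := by
    calc 12 * 2 ^ (d + 1) * NM F Z Z1 M
        ≤ 12 * 2 ^ (d + 1) * ∑ z ∈ Z1, (TZ F Z1 M z).card := Nat.mul_le_mul_left _ h2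
      _ = ∑ z ∈ Z1, 12 * 2 ^ (d + 1) * (TZ F Z1 M z).card := by rw [Finset.mul_sum]
      _ ≤ ∑ z ∈ Z1, ((5 * 2 ^ (d + 1) + 12 * V * Z1.card) * ∑ A ∈ F, pc F Z M X Y A z +
          24 * NP F Z Z1 M X Y) := Finset.sum_le_sum (fun z hz => h.bound_z d hz (hV z hz))
      _ = _ := by
        rw [Finset.sum_add_distrib, ← Finset.mul_sum, ← NP_eq, Finset.sum_const, smul_eq_mul]
  set N := NP F Z Z1 M X Y
  set K := NM F Z Z1 M
  set Q := 2 ^ (d + 1) with hQ
  have h4 : (5 * Q + 12 * V * Z1.card) * N + Z1.card * (24 * N) < 6 * Q * N := by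
    have : 12 * Z1.card * (2 + V) * N < Q * N := Nat.mul_lt_mul_of_pos_right hs hpos
    nlinarith
  have h5 : 12 * Q * K < 6 * Q * N := lt_of_le_of_lt h3 h4
  have h6 : 6 * Q * (2 * K) < 6 * Q * N := by
    calc 6 * Q * (2 * K) = 12 * Q * K := by ring
      _ < _ := h5
  have h7 := Nat.lt_of_mul_lt_mul_left h6
  omega

theorem card_le_four (S : Finset (Finset α)) :
    24 * (S.powerset.filter (fun Q => Q.card ≤ 4)).card ≤
      24 + 24 * S.card + 12 * S.card ^ 2 + 4 * S.card ^ 3 + S.card ^ 4 := by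
  have h1 : (S.powerset.filter (fun Q => Q.card ≤ 4)).card ≤
      ∑ j ∈ Finset.range 5, S.card.choose j := by
    have : S.powerset.filter (fun Q => Q.card ≤ 4) ⊆
        (Finset.range 5).biUnion (fun j => S.powersetCard j) := by
      intro Q hQ
      rw [Finset.mem_filter, Finset.mem_powerset] at hQ
      rw [Finset.mem_biUnion]
      exact ⟨Q.card, Finset.mem_range.mpr (by omega), Finset.mem_powersetCard.mpr ⟨hQ.1, rfl⟩⟩
    refine (Finset.card_le_card this).trans (Finset.card_biUnion_le.trans ?_)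
    apply Finset.sum_le_sum
    intro j _
    rw [Finset.card_powersetCard]
  have key : ∀ j, j.factorial * S.card.choose j ≤ S.card ^ j := by
    intro j
    rw [← Nat.descFactorial_eq_factorial_mul_choose]
    exact Nat.descFactorial_le_pow _ _
  have k2 := key 2
  have k3 := key 3
  have k4 := key 4
  simp only [Finset.sum_range_succ, Finset.sum_range_zero, Nat.choose_zero_right,
    Nat.choose_one_right] at h1
  have f2 : Nat.factorial 2 = 2 := rfl
  have f3 : Nat.factorial 3 = 6 := rfl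
  have f4 : Nat.factorial 4 = 24 := rfl
  rw [f2] at k2
  rw [f3] at k3
  rw [f4] at k4
  omega

theorem numeric2 (L : ℕ) :
    96 + 24 * (228 + 14 * L) + 12 * (228 + 14 * L) ^ 2 + 4 * (228 + 14 * L) ^ 3 +
      (228 + 14 * L) ^ 4 ≤ 2 ^ (32 + L) := by
  induction L with
  | zero => norm_num
  | succ n ih =>
    rw [← Nat.add_assoc, pow_succ]
    refine le_trans ?_ (Nat.mul_le_mul_right 2 ih)
    nlinarith [Nat.zero_le n, Nat.zero_le (n ^ 2), Nat.zero_le (n ^ 3), Nat.zero_le (n ^ 4)]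

/-- **Near-linear structure theorem.** If the generators are `s ≤ 2 ^ L` arbitrary sets and more than
`(228 + 14 L) s` pairwise disjoint nonempty sets, then some element of the disjoint sets lies in
more than half of the members, or one of the disjoint sets is not met properly by any of the other
generators. -/
theorem near_linear_par (h : Gen F Z D) (L : ℕ) (hL : Z.card ≤ 2 ^ L)
    (hcard : (228 + 14 * L) * Z.card < D.card) :
    (∃ d ∈ D, ∃ x ∈ d, F.card < 2 * (F.filter (fun A => x ∈ A)).card) ∨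
      ∃ d ∈ D, ∀ z ∈ Z, ¬ Par z d := by
  by_contra hcon
  push Not at hcon
  obtain ⟨hcon, hpar0⟩ := hcon
  obtain ⟨Z0, hZ0, M, hB, hM, hMd⟩ := hall_select Z (fun z => D.filter (fun d => Par z d))
    (7 * (30 + 2 * L) + 18)
  set B := Z0.biUnion (fun z => D.filter (fun d => Par z d)) with hBdef
  have hBlt : B.card < D.card := by
    calc B.card ≤ (7 * (30 + 2 * L) + 18) * Z0.card := hB
      _ ≤ (7 * (30 + 2 * L) + 18) * Z.card := Nat.mul_le_mul_left _ (Finset.card_le_card hZ0)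
      _ = (228 + 14 * L) * Z.card := by ring
      _ < D.card := hcard
  have hpar : ∀ d ∈ D, d ∉ B → ∀ z ∈ Z, Par z d → z ∈ Z \ Z0 := by
    intro d hd hdB z hz hp
    rw [Finset.mem_sdiff]
    refine ⟨hz, fun hz0 => hdB ?_⟩
    rw [hBdef, Finset.mem_biUnion]
    exact ⟨z, hz0, Finset.mem_filter.mpr ⟨hd, hp⟩⟩
  have hdata : Data0 F Z D (Z \ Z0) M (7 * (30 + 2 * L) + 18) := by
    refine ⟨h, Finset.sdiff_subset, ?_, fun z hz => (hM z hz).2, hMd, ?_⟩
    · intro z hz d hd
      have := Finset.mem_sdiff.mp ((hM z hz).1 hd)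
      exact Finset.mem_filter.mp this.1
    · intro z hz d hd z' hz' hp
      have := Finset.mem_sdiff.mp ((hM z hz).1 hd)
      exact hpar d (Finset.mem_filter.mp this.1).1 this.2 z' hz' hp
  obtain ⟨d, hd, hdB⟩ : ∃ d ∈ D, d ∉ B := by
    by_contra hall
    push Not at hall
    exact absurd (Finset.card_le_card hall) (by omega)
  obtain ⟨z, hz, hp⟩ := hpar0 d hd
  have hz1 : z ∈ Z \ Z0 := hpar d hd hdB z hz hp
  have hne : ((Z \ Z0).biUnion M).Nonempty := by
    have : 0 < (M z).card := by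
      rw [(hM z hz1).2]
      omega
    obtain ⟨j, hj⟩ := Finset.card_pos.mp this
    exact ⟨j, Finset.mem_biUnion.mpr ⟨z, hz1, hj⟩⟩
  obtain ⟨X, Y, hXY⟩ := hdata.exists_choice hne
  have e1 : 7 * (30 + 2 * L) + 18 = 228 + 14 * L := by ring
  obtain ⟨V, hV1, hV2⟩ : ∃ V, 24 * V ≤ 24 + 24 * (228 + 14 * L) + 12 * (228 + 14 * L) ^ 2 +
      4 * (228 + 14 * L) ^ 3 + (228 + 14 * L) ^ 4 ∧
      ∀ z ∈ Z \ Z0, ((M z).powerset.filter (fun Q => Q.card ≤ 4)).card ≤ V := by
    refine ⟨(24 + 24 * (228 + 14 * L) + 12 * (228 + 14 * L) ^ 2 +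
      4 * (228 + 14 * L) ^ 3 + (228 + 14 * L) ^ 4) / 24, Nat.mul_div_le _ _, ?_⟩
    intro z' hz'
    have h2 := card_le_four (M z')
    rw [(hM z' hz').2, e1] at h2
    rw [Nat.le_div_iff_mul_le (by norm_num), mul_comm]
    exact h2
  refine hXY.false (30 + 2 * L) hcon ⟨z, hz1⟩ hV2 ?_
  have h3 := numeric2 L
  have h4 : 12 * (2 + V) < 2 ^ (31 + L) := by
    have : 2 ^ (32 + L) = 2 * 2 ^ (31 + L) := by
      rw [← pow_succ']
      congr 1
      omega
    omega
  have h5 : (Z \ Z0).card ≤ 2 ^ L := (Finset.card_le_card Finset.sdiff_subset).trans hL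
  calc 12 * (Z \ Z0).card * (2 + V) = (Z \ Z0).card * (12 * (2 + V)) := by ring
    _ ≤ 2 ^ L * (12 * (2 + V)) := Nat.mul_le_mul_right _ h5
    _ < 2 ^ L * 2 ^ (31 + L) := Nat.mul_lt_mul_of_pos_left h4 (by positivity)
    _ = 2 ^ (30 + 2 * L + 1) := by rw [← pow_add]; congr 1; omega

/-- A block that is not met properly by any of the other generators is met properly by no
member. -/
theorem Gen.sub_or_disjoint (h : Gen F Z D) {d : Finset α} (hd : d ∈ D)
    (hpar : ∀ z ∈ Z, ¬ Par z d) {A : Finset α} (hA : A ∈ F) {x : α} (hx : x ∈ d) (hxA : x ∈ A) :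
    d ⊆ A := by
  obtain ⟨g, hg, hxg, hgA⟩ := h.gen A hA x hxA
  rcases Finset.mem_union.mp hg with hgZ | hgD
  · by_contra hdA
    exact hpar g hgZ ⟨⟨x, hxg, hx⟩, fun hh => hdA (hh.trans hgA)⟩
  · have : g = d := h.eq_of_mem hgD hd hxg hx
    exact this ▸ hgA

/-- **Near-linear structure theorem**, second form: some element of the disjoint generators lies in
more than half of the members, or one of the disjoint generators can be added to and removed from
every member. -/
theorem near_linear_strict (h : Gen F Z D) (L : ℕ) (hL : Z.card ≤ 2 ^ L)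
    (hcard : (228 + 14 * L) * Z.card < D.card) :
    (∃ d ∈ D, ∃ x ∈ d, F.card < 2 * (F.filter (fun A => x ∈ A)).card) ∨
      ∃ d ∈ D, (∀ A ∈ F, ∀ x ∈ d, x ∈ A → d ⊆ A) ∧ (∀ A ∈ F, A \ d ∈ F) ∧
        ∀ x ∈ d, F.card = 2 * (F.filter (fun A => x ∈ A)).card := by
  rcases near_linear_par h L hL hcard with h1 | ⟨d, hd, hpar⟩
  · exact Or.inl h1
  by_cases hbad : ∃ x ∈ d, F.card < 2 * (F.filter (fun A => x ∈ A)).card
  · obtain ⟨x, hx, hlt⟩ := hbad
    exact Or.inl ⟨d, hd, x, hx, hlt⟩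
  · push Not at hbad
    right
    have hsd : ∀ A ∈ F, ∀ x ∈ d, x ∈ A → d ⊆ A :=
      fun A hA x hx hxA => h.sub_or_disjoint hd hpar hA hx hxA
    -- the map `A ↦ A ∪ d` from the members missing `x` to those containing `x`
    have hmap : ∀ x ∈ d, ∀ A ∈ F.filter (fun A => x ∉ A), A ∪ d ∈ F.filter (fun A => x ∈ A) := by
      intro x hx A hA
      rw [Finset.mem_filter] at hA ⊢
      exact ⟨h.st A hA.1 d (Finset.mem_union_right _ hd), Finset.mem_union_right _ hx⟩
    have hdis : ∀ x ∈ d, ∀ A ∈ F.filter (fun A => x ∉ A), (A ∪ d) \ d = A := by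
      intro x hx A hA
      rw [Finset.mem_filter] at hA
      rw [Finset.union_sdiff_right]
      rw [Finset.sdiff_eq_self_iff_disjoint, Finset.disjoint_left]
      intro y hyA hyd
      exact hA.2 (hsd A hA.1 y hyd hyA hx)
    have hinj : ∀ x ∈ d, Set.InjOn (fun A => A ∪ d) (F.filter (fun A => x ∉ A) : Set (Finset α)) := by
      intro x hx A hA A' hA' hEq
      simp only at hEq
      rw [← hdis x hx A hA, ← hdis x hx A' hA', hEq]
    have hcount : ∀ x ∈ d, (F.filter (fun A => x ∈ A)).card + (F.filter (fun A => x ∉ A)).card =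
        F.card := fun x _ => Finset.card_filter_add_card_filter_not _
    have hle : ∀ x ∈ d, (F.filter (fun A => x ∉ A)).card ≤ (F.filter (fun A => x ∈ A)).card :=
      fun x hx => Finset.card_le_card_of_injOn _ (hmap x hx) (hinj x hx)
    have heq : ∀ x ∈ d, F.card = 2 * (F.filter (fun A => x ∈ A)).card := by
      intro x hx
      have e1 := hcount x hx
      have e2 := hle x hx
      have e3 := hbad x hx
      omega
    refine ⟨d, hd, hsd, ?_, heq⟩
    intro A hA
    obtain ⟨x, hx⟩ := h.ne d hd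
    by_cases hxA : x ∈ A
    · have e1 := hcount x hx
      have e2 := heq x hx
      have himg : (F.filter (fun A => x ∉ A)).image (fun A => A ∪ d) =
          F.filter (fun A => x ∈ A) := by
        apply Finset.eq_of_subset_of_card_le
        · intro B hB
          obtain ⟨A', hA', rfl⟩ := Finset.mem_image.mp hB
          exact hmap x hx A' hA'
        · rw [Finset.card_image_of_injOn (hinj x hx)]
          omega
      have hA2 : A ∈ (F.filter (fun A => x ∉ A)).image (fun A => A ∪ d) := by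
        rw [himg]
        exact Finset.mem_filter.mpr ⟨hA, hxA⟩
      obtain ⟨A', hA', rfl⟩ := Finset.mem_image.mp hA2
      rw [hdis x hx A' hA']
      exact (Finset.mem_filter.mp hA').1
    · have : A \ d = A := by
        rw [Finset.sdiff_eq_self_iff_disjoint, Finset.disjoint_left]
        intro y hyA hyd
        exact hxA (hsd A hA y hyd hyA hx)
      rw [this]
      exact hA

/-- **Near-linear structure theorem**, weak form. -/
theorem near_linear (h : Gen F Z D) (L : ℕ) (hL : Z.card ≤ 2 ^ L)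
    (hcard : (228 + 14 * L) * Z.card < D.card) :
    ∃ d ∈ D, ∃ x ∈ d, F.card ≤ 2 * (F.filter (fun A => x ∈ A)).card := by
  rcases near_linear_strict h L hL hcard with ⟨d, hd, x, hx, hlt⟩ | ⟨d, hd, _, _, heq⟩
  · exact ⟨d, hd, x, hx, hlt.le⟩
  · obtain ⟨x, hx⟩ := h.ne d hd
    exact ⟨d, hd, x, hx, (heq x hx).le⟩

end Pool.Agent.Helper38K2
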